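import Pool.Agent.TFB.Cross

/-! M4 (file Att.lean): condition (C) and the attachments of a component. -/

namespace Pool.Agent.TFB

open List Pool.Agent.TF82 Pool.Agent.TFC

universe u

set_option linter.unusedSectionVars false
set_option linter.unusedVariables false

variable {V : Type u} [DecidableEq V]

theorem reach_unc [Fintype V] {G : SimpleGraph V} {L : List (List V)} {y x : V}
    (hy : y ∈ unc L) (h : Reach G (unc L) y x) : x ∈ unc L := by
  induction h with
  | refl => exact hy
  | tail _ hbc _ => exact hbc.2.1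

theorem chain_ends {G : SimpleGraph V} {q : List V} {a b u w : V} (hq : q.IsChain G.Adj)
    (ha : q.head? = some a) (hb : q.getLast? = some b) (hu : G.Adj u a) (hw : G.Adj b w) :
    (u :: (q ++ [w])).IsChain G.Adj := by
  rw [List.isChain_cons]
  constructor
  · intro z hz
    rw [List.head?_append, ha] at hz
    simp at hz
    rw [← hz]
    exact hu
  · rw [List.isChain_append]
    refine ⟨hq, by simp, ?_⟩
    intro x hx z hz
    rw [hb] at hx
    simp at hx hz
    rw [← hx, ← hz]
    exact hw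

/-- a path through the component between two attachments -/
theorem comp_path [Fintype V] {G : SimpleGraph V} {L : List (List V)} {y x x' : V}
    (hy : y ∈ unc L) (h : Reach G (unc L) y x) (h' : Reach G (unc L) y x') :
    ∃ q : List V, q.Nodup ∧ q.IsChain G.Adj ∧ q.head? = some x ∧ q.getLast? = some x' ∧
      (∀ z ∈ q, z ∉ L.flatten) ∧ q ≠ [] := by
  obtain ⟨q, h1, h2, h3, h4, h5⟩ :=
    Reach.path (G := G) (U := unc L) (Relation.ReflTransGen.trans h.symm h' : Reach G (unc L) x x')
      (reach_unc hy h)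
  refine ⟨q, h1, h2, h3, h4, fun z hz => mem_unc.1 (h5 z hz), ?_⟩
  rintro rfl
  simp at h3

theorem att_noins [Fintype V] {G : SimpleGraph V} {j : ℕ} {L : List (List V)}
    (hM : IsMax G j L) {y : V} (hy : y ∈ unc L) {w : V} (hw : w ∈ att G L y) :
    prv L w ∉ att G L y := by
  intro hp
  rw [mem_att] at hw hp
  obtain ⟨hw1, x, hx, hwx⟩ := hw
  obtain ⟨hp1, x', hx', hpx'⟩ := hp
  obtain ⟨q, h1, h2, h3, h4, h5, h6⟩ := comp_path hy hx' hx
  exact h6 (ins0 hM hw1 (chain_ends h2 h3 h4 hpx' hwx.symm) h1 h5)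

theorem att_indep [Fintype V] {G : SimpleGraph V} {j : ℕ} {L : List (List V)}
    (hM : IsMax G j L) {y : V} (hy : y ∈ unc L) {w w' : V} (hw : w ∈ att G L y)
    (hw' : w' ∈ att G L y) : ¬ G.Adj (prv L w) (prv L w') := by
  intro hadj
  by_cases hne : w = w'
  · subst hne
    exact G.loopless.irrefl _ hadj
  rw [mem_att] at hw hw'
  obtain ⟨hw1, x, hx, hwx⟩ := hw
  obtain ⟨hw2, x', hx', hwx'⟩ := hw'
  obtain ⟨q, h1, h2, h3, h4, h5, h6⟩ := comp_path hy hx hx'
  refine h6 (cross00 hM hw1 hw2 hne (X := []) (Y := q) ?_ (chain_ends h2 h3 h4 hwx hwx'.symm)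
    (by simpa using h1) (by simpa using h5)).2
  simpa using hadj

/-- condition (C) for an independent set in a component together with the predecessors of the
attachments -/
theorem att_count [Fintype V] {G : SimpleGraph V} [DecidableRel G.Adj]
    (hC : ∀ I : Finset V, G.IsIndepSet (I : Set V) → ∀ v ∈ I, I.card + 1 ≤ dU G Finset.univ v)
    {j : ℕ} {L : List (List V)} (hM : IsMax G j L) {y : V} (hy : y ∈ unc L) (J : Finset V)
    (hJ : G.IsIndepSet (J : Set V)) (hJr : ∀ x ∈ J, Reach G (unc L) y x) {v : V} (hv : v ∈ J) :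
    J.card + (att G L y).card + 1 ≤ dU G Finset.univ v := by
  have hcov : ∀ w ∈ att G L y, w ∈ L.flatten := fun w hw => (mem_att.1 hw).1
  have hcr : ∀ w ∈ att G L y, ∀ x ∈ J, ¬ G.Adj (prv L w) x := by
    intro w hw x hx hadj
    exact att_noins hM hy hw (mem_att.2 ⟨prv_mem hM.fam (hcov w hw), x, hJr x hx, hadj⟩)
  have hdis : Disjoint J ((att G L y).image (prv L)) := by
    rw [Finset.disjoint_left]
    intro x hx hx'
    obtain ⟨w, hw, rfl⟩ := Finset.mem_image.1 hx'
    exact mem_unc.1 (reach_unc hy (hJr _ hx)) (prv_mem hM.fam (hcov w hw))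
  have hcard : (J ∪ (att G L y).image (prv L)).card = J.card + (att G L y).card := by
    rw [Finset.card_union_of_disjoint hdis, Finset.card_image_of_injOn]
    intro a ha b hb hab
    exact prv_inj hM.fam (hcov a ha) (hcov b hb) hab
  rw [← hcard]
  refine hC _ ?_ v (Finset.mem_union_left _ hv)
  intro a ha b hb hab
  rw [Finset.mem_coe, Finset.mem_union] at ha hb
  rcases ha with ha | ha
  · rcases hb with hb | hb
    · exact hJ ha hb hab
    · obtain ⟨w, hw, rfl⟩ := Finset.mem_image.1 hb
      exact fun h => hcr w hw a ha h.symm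
  · obtain ⟨w, hw, rfl⟩ := Finset.mem_image.1 ha
    rcases hb with hb | hb
    · exact hcr w hw b hb
    · obtain ⟨w', hw', rfl⟩ := Finset.mem_image.1 hb
      exact att_indep hM hy hw hw'

theorem att_deg [Fintype V] {G : SimpleGraph V} [DecidableRel G.Adj] {L : List (List V)}
    {y : V} (hy : y ∈ unc L) {v : V} (hv : Reach G (unc L) y v) :
    dU G Finset.univ v =
      dU G (unc L) v + ((att G L y).filter (fun w => G.Adj v w)).card := by
  unfold dU
  have hdis : Disjoint ((unc L).filter (fun w => G.Adj v w))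
      ((att G L y).filter (fun w => G.Adj v w)) := by
    rw [Finset.disjoint_left]
    intro x hx hx'
    exact mem_unc.1 (Finset.mem_filter.1 hx).1 (mem_att.1 (Finset.mem_filter.1 hx').1).1
  rw [← Finset.card_union_of_disjoint hdis]
  congr 1
  ext w
  rw [Finset.mem_union, Finset.mem_filter, Finset.mem_filter, Finset.mem_filter, mem_unc, mem_att]
  constructor
  · rintro ⟨-, h⟩
    by_cases hw : w ∈ L.flatten
    · exact Or.inr ⟨⟨hw, v, hv, h.symm⟩, h⟩
    · exact Or.inl ⟨hw, h⟩
  · rintro (⟨-, h⟩ | ⟨-, h⟩)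
    · exact ⟨Finset.mem_univ _, h⟩
    · exact ⟨Finset.mem_univ _, h⟩

/-- a vertex of a component has many neighbours in it and is adjacent to almost all attachments -/
theorem att_main [Fintype V] {G : SimpleGraph V} [DecidableRel G.Adj]
    (hC : ∀ I : Finset V, G.IsIndepSet (I : Set V) → ∀ v ∈ I, I.card + 1 ≤ dU G Finset.univ v)
    {j : ℕ} {L : List (List V)} (hM : IsMax G j L) {y : V} (hy : y ∈ unc L) (J : Finset V)
    (hJ : G.IsIndepSet (J : Set V)) (hJr : ∀ x ∈ J, Reach G (unc L) y x) {v : V} (hv : v ∈ J) :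
    J.card + 1 + ((att G L y).filter (fun w => ¬ G.Adj v w)).card ≤ dU G (unc L) v := by
  have h1 := att_count hC hM hy J hJ hJr hv
  have h2 := att_deg hy (hJr v hv)
  have h3 := Finset.card_filter_add_card_filter_not (s := att G L y) (fun w => G.Adj v w)
  omega

theorem cloc_unc [Fintype V] {G : SimpleGraph V} [DecidableRel G.Adj]
    (hC : ∀ I : Finset V, G.IsIndepSet (I : Set V) → ∀ v ∈ I, I.card + 1 ≤ dU G Finset.univ v)
    {j : ℕ} {L : List (List V)} (hM : IsMax G j L) : CLoc G (unc L) := by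
  intro I hI hind hr v hv
  have h1 := att_main hC hM (hI hv) I hind (fun x hx => hr v hv x hx) hv
  omega

/-- neighbours in the uncovered part lie in the component -/
theorem dU_comp [Fintype V] {G : SimpleGraph V} [DecidableRel G.Adj] {L : List (List V)}
    {y v : V} (hv : v ∈ comp G L y) : dU G (comp G L y) v = dU G (unc L) v := by
  unfold dU
  congr 1
  ext w
  rw [Finset.mem_filter, Finset.mem_filter, mem_comp]
  rw [mem_comp] at hv
  constructor
  · rintro ⟨⟨h1, -⟩, h2⟩
    exact ⟨h1, h2⟩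
  · rintro ⟨h1, h2⟩
    exact ⟨⟨h1, Relation.ReflTransGen.tail hv.2 ⟨hv.1, h1, h2⟩⟩, h2⟩

theorem cloc_comp [Fintype V] {G : SimpleGraph V} [DecidableRel G.Adj]
    (hC : ∀ I : Finset V, G.IsIndepSet (I : Set V) → ∀ v ∈ I, I.card + 1 ≤ dU G Finset.univ v)
    {j : ℕ} {L : List (List V)} (hM : IsMax G j L) {y : V} (hy : y ∈ unc L) :
    CLoc G (comp G L y) := by
  intro I hI hind _ v hv
  rw [dU_comp (hI hv)]
  have h1 := att_main hC hM hy I hind (fun x hx => (mem_comp.1 (hI hx)).2) hv
  omega

end Pool.Agent.TFB
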