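import Pool.Agent.TFB.Final

/-! A 2-factor whose number of cycles is bounded in terms of `k`, under condition (C) and
`σ_{k+1} ≥ n`. -/

namespace Pool.Agent.TFB.Bounded

open List Pool.Agent.TF82 Pool.Agent.TFB

universe u

/-- Let `k` be a natural number and `G` a finite graph of order `n` such that
* every independent set `I` satisfies `|I| + 1 ≤ deg v` for all `v ∈ I` (condition (C)),
* every independent set with `k + 1` elements has degree sum at least `n`.
Then `G` has a spanning 2-regular subgraph with at most `5 * 10^6 * (k + 1)^12` connected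
components. -/
theorem result {V : Type u} [Fintype V] [DecidableEq V] (G : SimpleGraph V)
    [DecidableRel G.Adj] (k : ℕ)
    (hC : ∀ I : Finset V, G.IsIndepSet (I : Set V) → ∀ v ∈ I, I.card + 1 ≤ G.degree v)
    (hσ : ∀ I : Finset V, G.IsIndepSet (I : Set V) → I.card = k + 1 →
      Fintype.card V ≤ ∑ v ∈ I, G.degree v) :
    ∃ F : SimpleGraph V, F ≤ G ∧ (∀ v, (F.neighborSet v).ncard = 2) ∧
      Nat.card F.ConnectedComponent ≤ 5 * 10 ^ 6 * (k + 1) ^ 12 := by
  have hd : ∀ v, dU G Finset.univ v = G.degree v := by
    intro v
    unfold dU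
    rw [← SimpleGraph.card_neighborFinset_eq_degree, SimpleGraph.neighborFinset_eq_filter]
  apply twoFactor_of_cov
  refine cov_bounded k G ?_ ?_
  · intro I hI v hv
    rw [hd]
    exact hC I hI v hv
  · intro I hI hIk
    have := hσ I hI hIk
    simpa only [hd] using this

end Pool.Agent.TFB.Bounded
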