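import Pool.Agent.TFB.Hub
import Pool.Agent.TFB.Att

/-! M5 (file CompB.lean): in a dense graph the components of the uncovered part are bounded. -/

namespace Pool.Agent.TFB

open List Pool.Agent.TF82 Pool.Agent.TFC

universe u

set_option linter.unusedSectionVars false
set_option linter.unusedVariables false

variable {V : Type u} [DecidableEq V]

/-- the cycle at the head of a longest path -/
theorem head_cycle {G : SimpleGraph V} [DecidableRel G.Adj] {U : Finset V} (hC : CLoc G U) {m : ℕ}
    (hmax : ∀ l : List V, l.Nodup → l.IsChain G.Adj → (∀ x ∈ l, x ∈ U) → l.length ≤ m) {v : V}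
    {t : List V} (hl1 : (v :: t).Nodup) (hl2 : (v :: t).IsChain G.Adj)
    (hl3 : ∀ x ∈ v :: t, x ∈ U) (hl4 : (v :: t).length = m) :
    ∃ r z s, t = r ++ z :: s ∧ G.Adj v z ∧ CycL G (v :: (r ++ [z])) ∧
      dU G U v ≤ r.length + 1 := by
  have hvU : v ∈ U := hl3 v (by simp)
  have hnb : ∀ z ∈ U, G.Adj v z → z ∈ t := by
    intro z hz hvz
    by_contra hzt
    have hzv : z ≠ v := fun h => G.loopless.irrefl v (h ▸ hvz)
    have : m + 1 ≤ m := by
      have h1 := hmax (z :: v :: t) (by
        rw [List.nodup_cons]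
        refine ⟨?_, hl1⟩
        intro h
        rcases List.mem_cons.1 h with h | h
        · exact hzv h
        · exact hzt h) (by
        rw [List.isChain_cons_cons]
        exact ⟨hvz.symm, hl2⟩) (by
        intro x hx
        rcases List.mem_cons.1 hx with h | h
        · rw [h]; exact hz
        · exact hl3 x h)
      rw [List.length_cons, hl4] at h1
      exact h1
    omega
  have hdeg : 2 ≤ dU G U v := by
    have := hC {v} (by simpa using hvU) (by simp [SimpleGraph.IsIndepSet]) (by
      intro a ha b hb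
      simp at ha hb
      rw [ha, hb]
      exact Relation.ReflTransGen.refl) v (by simp)
    simpa using this
  have hex : ∃ x ∈ t, G.Adj v x := by
    have hpos : 0 < (U.filter (fun w => G.Adj v w)).card := by
      unfold dU at hdeg; omega
    obtain ⟨x, hx⟩ := Finset.card_pos.1 hpos
    rw [Finset.mem_filter] at hx
    exact ⟨x, hnb x hx.1 hx.2, hx.2⟩
  obtain ⟨r, z, s, ht, hz, hs⟩ := last_split (fun x => G.Adj v x) t hex
  have hnb2 : ∀ w ∈ U, G.Adj v w → w ∈ r ++ [z] := by
    intro w hw hvw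
    have h1 := hnb w hw hvw
    rw [ht] at h1
    have h2 : w ∉ s := fun h => hs w h hvw
    simp at h1 ⊢
    tauto
  have hle : dU G U v ≤ r.length + 1 := by
    have h1 : (U.filter (fun w => G.Adj v w)) ⊆ (r ++ [z]).toFinset := by
      intro w hw
      rw [Finset.mem_filter] at hw
      exact List.mem_toFinset.2 (hnb2 w hw.1 hw.2)
    have h2 := Finset.card_le_card h1
    have h3 := List.toFinset_card_le (r ++ [z])
    simp only [List.length_append, List.length_cons, List.length_nil] at h3
    unfold dU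
    omega
  have hrlen : 1 ≤ r.length := by omega
  have hsplit : v :: t = (v :: (r ++ [z])) ++ s := by rw [ht]; simp
  refine ⟨r, z, s, ht, hz, ⟨?_, ?_, ?_, ?_⟩, hle⟩
  · rw [hsplit] at hl1
    exact (List.nodup_append.1 hl1).1
  · simp; omega
  · rw [hsplit] at hl2
    exact (List.isChain_append.1 hl2).1
  · intro x hx y hy
    have h1 : (v :: (r ++ [z])).getLast? = some z := by
      rw [← List.cons_append, List.getLast?_append]; simp
    rw [h1] at hx
    simp at hx hy
    rw [← hx, ← hy]
    exact hz.symm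

/-- Two ends of longest paths in the component of `y`, joined by a path `X` in it. -/
theorem two_ends [Fintype V] {G : SimpleGraph V} [DecidableRel G.Adj]
    (hC : ∀ I : Finset V, G.IsIndepSet (I : Set V) → ∀ v ∈ I, I.card + 1 ≤ dU G Finset.univ v)
    {j : ℕ} {L : List (List V)} (hM : IsMax G j L) {y : V} (hy : y ∈ unc L) :
    ∃ v v' X, v ∈ comp G L y ∧ v' ∈ comp G L y ∧ Seg G X v v' ∧ X.Nodup ∧
      (∀ x ∈ X, x ∈ comp G L y) ∧ dU G (unc L) v ≤ X.length ∧
      j * (dU G (unc L) v + 1) ≤ Fintype.card V ∧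
      j * (dU G (unc L) v' + 1) ≤ Fintype.card V := by
  obtain ⟨U, hU⟩ : ∃ U, U = comp G L y := ⟨_, rfl⟩
  have hCU : CLoc G U := by
    rw [hU]
    exact cloc_comp hC hM hy
  have hyU : y ∈ U := by
    rw [hU]
    exact mem_comp.2 ⟨hy, Relation.ReflTransGen.refl⟩
  have hUunc : ∀ x ∈ U, x ∉ L.flatten := by
    intro x hx
    rw [hU] at hx
    exact mem_unc.1 (mem_comp.1 hx).1
  obtain ⟨m, ⟨l, hl1, hl2, hl3, hl4⟩, hmax⟩ := exists_max_nat
    (fun m => ∃ l : List V, l.Nodup ∧ l.IsChain G.Adj ∧ (∀ x ∈ l, x ∈ U) ∧ l.length = m) U.card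
    ⟨1, [y], by simp, by simp, by simpa using hyU, by simp⟩
    (by
      rintro m ⟨l, h1, h2, h3, rfl⟩
      exact nodup_len_le h1 h3)
  have hmax' : ∀ l : List V, l.Nodup → l.IsChain G.Adj → (∀ x ∈ l, x ∈ U) → l.length ≤ m :=
    fun l h1 h2 h3 => hmax _ ⟨l, h1, h2, h3, rfl⟩
  have hm1 : 1 ≤ m := hmax 1 ⟨[y], by simp, by simp, by simpa using hyU, by simp⟩
  rcases l with _ | ⟨v, t⟩
  · simp at hl4; omega
  -- the bound for the degree of the head
  have hbound : ∀ (h : V) (t' : List V), (h :: t').Nodup → (h :: t').IsChain G.Adj →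
      (∀ x ∈ h :: t', x ∈ U) → (h :: t').length = m →
      j * (dU G (unc L) h + 1) ≤ Fintype.card V := by
    intro h t' h1 h2 h3 h4
    obtain ⟨r, z, s, e1, e2, e3, e4⟩ := head_cycle hCU hmax' h1 h2 h3 h4
    have hd : dU G U h = dU G (unc L) h := by
      rw [hU]
      apply dU_comp
      rw [← hU]
      exact h3 h (by simp)
    have h5 := cyc_len hM e3 (by
      intro x hx
      apply hUunc
      apply h3
      rw [e1]
      simp at hx ⊢
      tauto)
    rw [hd] at e4
    refine le_trans (Nat.mul_le_mul_left j ?_) h5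
    simp
    omega
  obtain ⟨r, z, s, e1, e2, e3, e4⟩ := head_cycle hCU hmax' hl1 hl2 hl3 hl4
  have hvU : v ∈ U := hl3 v (by simp)
  have hd : dU G U v = dU G (unc L) v := by
    rw [hU]
    apply dU_comp
    rw [← hU]
    exact hvU
  have hsplit : v :: t = (v :: r) ++ (z :: s) := by rw [e1]; simp
  rw [hsplit] at hl1 hl2 hl4
  have hl3' : ∀ x ∈ (v :: r) ++ (z :: s), x ∈ U := by
    intro x hx
    rw [← hsplit] at hx
    exact hl3 x hx
  obtain ⟨q, hq⟩ : ∃ q, q = (v :: r).reverse := ⟨_, rfl⟩
  rcases q with _ | ⟨v', t'⟩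
  · simp at hq
  have hlast : (v :: r).getLast? = some v' := by
    rw [← List.head?_reverse, ← hq]
    rfl
  have hv'r : v' ∈ v :: r := List.mem_of_getLast? hlast
  refine ⟨v, v', v :: r, ?_, ?_, ⟨?_, rfl, hlast⟩, ?_, ?_, ?_, ?_, ?_⟩
  · rw [← hU]
    exact hvU
  · rw [← hU]
    exact hl3' v' (List.mem_append_left _ hv'r)
  · exact (List.isChain_append.1 hl2).1
  · exact (List.nodup_append.1 hl1).1
  · intro x hx
    rw [← hU]
    exact hl3' x (List.mem_append_left _ hx)
  · rw [← hd]
    simpa using e4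
  · refine hbound v t ?_ ?_ hl3 ?_
    · rw [hsplit]; exact hl1
    · rw [hsplit]; exact hl2
    · rw [hsplit]; exact hl4
  · have hq2 : v' :: (t' ++ (z :: s)) = (v :: r).reverse ++ (z :: s) := by
      rw [← hq]
      rfl
    refine hbound v' (t' ++ (z :: s)) ?_ ?_ ?_ ?_
    · rw [hq2, List.nodup_append]
      rw [List.nodup_append] at hl1
      refine ⟨List.nodup_reverse.2 hl1.1, hl1.2.1, ?_⟩
      intro a ha b hb
      exact hl1.2.2 a (List.mem_reverse.1 ha) b hb
    · rw [hq2, List.isChain_append]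
      rw [List.isChain_append] at hl2
      refine ⟨?_, hl2.2.1, ?_⟩
      · rw [List.isChain_reverse]
        exact hl2.1.imp (fun _ _ h => h.symm)
      · intro a ha b hb
        rw [List.getLast?_reverse] at ha
        simp at ha hb
        rw [← ha, ← hb]
        exact e2
    · intro x hx
      rw [hq2, List.mem_append, List.mem_reverse] at hx
      exact hl3' x (List.mem_append.2 hx)
    · rw [hq2, List.length_append, List.length_reverse, ← List.length_append]
      exact hl4

/-- attachments adjacent to two vertices of a component -/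
theorem common_att [Fintype V] {G : SimpleGraph V} [DecidableRel G.Adj]
    (hC : ∀ I : Finset V, G.IsIndepSet (I : Set V) → ∀ v ∈ I, I.card + 1 ≤ dU G Finset.univ v)
    {j : ℕ} {L : List (List V)} (hM : IsMax G j L) {y : V} (hy : y ∈ unc L) {v v' : V}
    (hv : v ∈ comp G L y) (hv' : v' ∈ comp G L y) :
    dU G Finset.univ v ≤ ((att G L y).filter (fun w => G.Adj w v ∧ G.Adj w v')).card +
      dU G (unc L) v + dU G (unc L) v' := by
  have h1 := att_deg hy (mem_comp.1 hv).2
  have h2 := att_main hC hM hy {v'} (by simp [SimpleGraph.IsIndepSet]) (by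
    intro x hx
    rw [Finset.mem_singleton] at hx
    rw [hx]
    exact (mem_comp.1 hv').2) (v := v') (by simp)
  have h3 : (att G L y).filter (fun w => G.Adj v w) ⊆
      (att G L y).filter (fun w => G.Adj w v ∧ G.Adj w v') ∪
        (att G L y).filter (fun w => ¬ G.Adj v' w) := by
    intro w hw
    rw [Finset.mem_filter] at hw
    rw [Finset.mem_union, Finset.mem_filter, Finset.mem_filter]
    by_cases h : G.Adj v' w
    · exact Or.inl ⟨hw.1, hw.2.symm, h.symm⟩
    · exact Or.inr ⟨hw.1, h⟩
  have h4 := (Finset.card_le_card h3).trans (Finset.card_union_le _ _)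
  omega

theorem hub_bound [Fintype V] {G : SimpleGraph V} [DecidableRel G.Adj]
    {j : ℕ} {L : List (List V)} (hM : IsMax G j L) {y : V} {t : ℕ}
    {X : List V} {v v' : V} (hX : Seg G X v v') (hXn : X.Nodup) (hXd : ∀ z ∈ X, z ∉ L.flatten)
    (hn : 0 < Fintype.card V)
    (hT : Fintype.card V ≤
      2 * t * ((att G L y).filter (fun w => G.Adj w v ∧ G.Adj w v')).card) :
    X.length + 1 ≤ 2 * t := by
  obtain ⟨T, hTe⟩ : ∃ T, T = (att G L y).filter (fun w => G.Adj w v ∧ G.Adj w v') := ⟨_, rfl⟩
  rw [← hTe] at hT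
  have h1 := hub_count hM hX hXn hXd T (by
    intro w hw
    rw [hTe, Finset.mem_filter] at hw
    exact ⟨(mem_att.1 hw.1).1, hw.2⟩)
  have hTpos : 0 < T.card := by
    rcases Nat.eq_zero_or_pos T.card with h | h
    · rw [h] at hT
      omega
    · exact h
  have h2 : T.card * (X.length + 1) ≤ T.card * (2 * t) := by
    calc T.card * (X.length + 1) ≤ Fintype.card V := h1
      _ ≤ 2 * t * T.card := hT
      _ = T.card * (2 * t) := by ring
  exact Nat.le_of_mul_le_mul_left h2 hTpos

theorem comp_card [Fintype V] {G : SimpleGraph V} [DecidableRel G.Adj]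
    (hC : ∀ I : Finset V, G.IsIndepSet (I : Set V) → ∀ v ∈ I, I.card + 1 ≤ dU G Finset.univ v)
    {t : ℕ} (ht : 1 ≤ t) (hd : ∀ v, Fintype.card V ≤ t * dU G Finset.univ v)
    {L : List (List V)} (hM : IsMax G (16 * t ^ 2) L) {y : V} (hy : y ∈ unc L) :
    (comp G L y).card ≤ 8 * t ^ 2 := by
  have hn : 0 < Fintype.card V := Fintype.card_pos_iff.2 ⟨y⟩
  obtain ⟨n, hne⟩ : ∃ n, n = Fintype.card V := ⟨_, rfl⟩
  have hcompunc : ∀ x ∈ comp G L y, x ∉ L.flatten := fun x hx => mem_unc.1 (mem_comp.1 hx).1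
  obtain ⟨v, v', X, hv, hv', hX, hXn, hXc, hdX, hj, hj'⟩ := two_ends hC hM hy
  have h1 := common_att hC hM hy hv hv'
  obtain ⟨T, hT⟩ : ∃ T, T = ((att G L y).filter (fun w => G.Adj w v ∧ G.Adj w v')).card :=
    ⟨_, rfl⟩
  obtain ⟨d, hde⟩ : ∃ d, d = dU G (unc L) v := ⟨_, rfl⟩
  obtain ⟨d', hde'⟩ : ∃ d', d' = dU G (unc L) v' := ⟨_, rfl⟩
  have hTb : Fintype.card V ≤ 2 * t * T := by
    have h2 := hd v
    rw [← hT, ← hde, ← hde'] at h1
    rw [← hde] at hj
    rw [← hde'] at hj'
    have h3 : t * dU G Finset.univ v ≤ t * T + t * d + t * d' := by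
      calc t * dU G Finset.univ v ≤ t * (T + d + d') := Nat.mul_le_mul_left _ h1
        _ = t * T + t * d + t * d' := by ring
    have h4 : 16 * (t * d) ≤ n := by
      rw [hne]
      refine le_trans ?_ hj
      have e : t ≤ t ^ 2 := Nat.le_self_pow (by norm_num) t
      have e2 : t * d ≤ t ^ 2 * (d + 1) := Nat.mul_le_mul e (Nat.le_succ d)
      calc 16 * (t * d) ≤ 16 * (t ^ 2 * (d + 1)) := Nat.mul_le_mul_left _ e2
        _ = 16 * t ^ 2 * (d + 1) := by ring
    have h5 : 16 * (t * d') ≤ n := by
      rw [hne]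
      refine le_trans ?_ hj'
      have e : t ≤ t ^ 2 := Nat.le_self_pow (by norm_num) t
      have e2 : t * d' ≤ t ^ 2 * (d' + 1) := Nat.mul_le_mul e (Nat.le_succ d')
      calc 16 * (t * d') ≤ 16 * (t ^ 2 * (d' + 1)) := Nat.mul_le_mul_left _ e2
        _ = 16 * t ^ 2 * (d' + 1) := by ring
    rw [← hne] at h2 ⊢
    nlinarith
  have hX1 : X.length + 1 ≤ 2 * t := by
    refine hub_bound hM (y := y) hX hXn (fun z hz => hcompunc z (hXc z hz)) hn ?_
    rw [← hT]
    exact hTb
  have hd2 : d ≤ 2 * t := by omega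
  -- independent sets
  have hind : ∀ I : Finset V, I ⊆ comp G L y → G.IsIndepSet (I : Set V) → I.card ≤ 4 * t := by
    intro I hI hII
    obtain ⟨J, hJ⟩ : ∃ J, J = insert v (I.filter (fun w => ¬ G.Adj v w)) := ⟨_, rfl⟩
    have h2 := att_main hC hM hy J (by
      rw [hJ]
      intro a ha b hb hab
      rw [Finset.mem_coe, Finset.mem_insert, Finset.mem_filter] at ha hb
      rcases ha with ha | ha <;> rcases hb with hb | hb
      · exact absurd (ha.trans hb.symm) hab
      · rw [ha]; exact hb.2
      · rw [hb]; intro h; exact ha.2 h.symm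
      · exact hII ha.1 hb.1 hab) (by
      intro x hx
      rw [hJ, Finset.mem_insert, Finset.mem_filter] at hx
      rcases hx with rfl | hx
      · exact (mem_comp.1 hv).2
      · exact (mem_comp.1 (hI hx.1)).2) (v := v) (by
      rw [hJ]
      exact Finset.mem_insert_self _ _)
    have h3 : (I.filter (fun w => ¬ G.Adj v w)).card ≤ J.card := by
      rw [hJ]
      exact Finset.card_le_card (Finset.subset_insert _ _)
    have h4 : (I.filter (fun w => G.Adj v w)).card ≤ dU G (unc L) v := by
      unfold dU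
      apply Finset.card_le_card
      intro w hw
      rw [Finset.mem_filter] at hw ⊢
      exact ⟨(mem_comp.1 (hI hw.1)).1, hw.2⟩
    have h5 := Finset.card_filter_add_card_filter_not (s := I) (p := fun w => G.Adj v w)
    omega
  obtain ⟨L', hL1, hL2, hL3, hL4⟩ := cover_of_indep (4 * t) (comp G L y)
    (cloc_comp hC hM hy) hind
  have hcard : (comp G L y).card = L'.flatten.length := by
    rw [← List.toFinset_card_of_nodup hL3]
    congr 1
    ext x
    rw [List.mem_toFinset, hL4]
  have hsum : ∀ (K B : ℕ) (M : List (List V)), (∀ c ∈ M, K * c.length ≤ B) →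
      K * M.flatten.length ≤ M.length * B := by
    intro K B M
    induction M with
    | nil => intro _; simp
    | cons c M ih =>
      intro h
      have h2 := h c (by simp)
      have h3 := ih (fun c hc => h c (List.mem_cons_of_mem _ hc))
      rw [List.flatten_cons, List.length_append, List.length_cons]
      nlinarith
  have hsubc : ∀ c ∈ L', ∀ x ∈ c, x ∈ comp G L y := fun c hc x hx =>
    (hL4 x).1 (List.mem_flatten.2 ⟨c, hc, hx⟩)
  have hlen1 : 4 * t * (comp G L y).card ≤ n := by
    have h2 := hsum (16 * t ^ 2) n L' (by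
      intro c hc
      rw [hne]
      exact cyc_len hM (hL2 c hc) (fun x hx => hcompunc x (hsubc c hc x hx)))
    rw [← hcard] at h2
    have h3 : L'.length * n ≤ 4 * t * n := Nat.mul_le_mul_right _ hL1
    have h4 : (4 * t) * (4 * t * (comp G L y).card) ≤ (4 * t) * n := by
      calc (4 * t) * (4 * t * (comp G L y).card) = 16 * t ^ 2 * (comp G L y).card := by ring
        _ ≤ (4 * t) * n := h2.trans h3
    exact Nat.le_of_mul_le_mul_left h4 (by omega)
  have hunc : ∀ x ∈ comp G L y, dU G (unc L) x ≤ (comp G L y).card := by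
    intro x hx
    rw [← dU_comp hx]
    unfold dU
    exact Finset.card_filter_le _ _
  have hlen2 : ∀ c ∈ L', 1 * c.length ≤ 2 * t := by
    intro c hc
    have hcyc := hL2 c hc
    rcases hcc : c with _ | ⟨x, c'⟩
    · simp
    rw [hcc] at hcyc
    have hlt : (x :: c').getLast? = some ((x :: c').getLast (by simp)) :=
      List.getLast?_eq_getLast_of_ne_nil (by simp)
    obtain ⟨x', hx'⟩ : ∃ x', x' = (x :: c').getLast (by simp) := ⟨_, rfl⟩
    rw [← hx'] at hlt
    have hxc : x ∈ comp G L y := hsubc c hc x (by rw [hcc]; simp)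
    have hxc' : x' ∈ comp G L y := hsubc c hc x' (by
      rw [hcc]
      exact List.mem_of_getLast? hlt)
    have h2 := common_att hC hM hy hxc hxc'
    have h3 := hunc x hxc
    have h4 := hunc x' hxc'
    obtain ⟨T', hT'⟩ : ∃ T', T' = ((att G L y).filter (fun w => G.Adj w x ∧ G.Adj w x')).card :=
      ⟨_, rfl⟩
    have h5 : Fintype.card V ≤ 2 * t * T' := by
      have h6 := hd x
      rw [← hT'] at h2
      have h7 : t * dU G Finset.univ x ≤ t * T' + 2 * (t * (comp G L y).card) := by
        calc t * dU G Finset.univ x ≤ t * (T' + (comp G L y).card + (comp G L y).card) :=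
              Nat.mul_le_mul_left _ (by omega)
          _ = t * T' + 2 * (t * (comp G L y).card) := by ring
      rw [← hne] at h6 ⊢
      nlinarith
    have h6 := hub_bound hM (y := y) (X := x :: c') (v := x) (v' := x') (t := t)
      ⟨hcyc.2.2.1, rfl, hlt⟩ hcyc.1 (fun z hz => hcompunc z (hsubc c hc z (by rw [hcc]; exact hz)))
      hn (by rw [← hT']; exact h5)
    omega
  have h2 := hsum 1 (2 * t) L' hlen2
  rw [← hcard, one_mul] at h2
  calc (comp G L y).card ≤ L'.length * (2 * t) := h2
    _ ≤ 4 * t * (2 * t) := Nat.mul_le_mul_right _ hL1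
    _ = 8 * t ^ 2 := by ring

end Pool.Agent.TFB
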