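import Pool.Agent.TFB.Place

/-! M2 (file Cross.lean): rerouting a best family through uncovered vertices. -/

namespace Pool.Agent.TFB

open List Pool.Agent.TF82 Pool.Agent.TFC

universe u

set_option linter.unusedSectionVars false
set_option linter.unusedVariables false

variable {V : Type u} [DecidableEq V]

/-- closing a chain through a second one -/
theorem close_seg {G : SimpleGraph V} {P X : List V} {w u : V} (hP : Seg G P w u)
    (hX : (u :: (X ++ [w])).IsChain G.Adj) (hn : (P ++ X).Nodup)
    (h3 : 3 ≤ P.length + X.length) : CycL G (P ++ X) := by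
  have h1 : (X ++ [w]).IsChain G.Adj := (List.isChain_cons.1 hX).2
  refine ⟨hn, ?_, ?_, ?_⟩
  · rw [List.length_append]; omega
  · rw [List.isChain_append]
    refine ⟨hP.ch, (List.isChain_append.1 h1).1, ?_⟩
    intro x hx y hy
    rw [hP.lt] at hx
    simp only [Option.mem_def, Option.some.injEq] at hx
    subst hx
    refine (List.isChain_cons.1 hX).1 y ?_
    rw [List.head?_append]
    rw [Option.mem_def] at hy
    rw [hy]
    rfl
  · intro x hx y hy
    rw [List.head?_append, hP.hd] at hy
    simp only [Option.some_or, Option.mem_def, Option.some.injEq] at hy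
    subst hy
    by_cases hX0 : X = []
    · subst hX0
      rw [List.append_nil, hP.lt] at hx
      simp only [Option.mem_def, Option.some.injEq] at hx
      subst hx
      exact (List.isChain_cons.1 hX).1 w (by simp)
    · rw [List.getLast?_append_of_ne_nil _ hX0] at hx
      exact (List.isChain_append.1 h1).2.2 x hx w (by simp)

/-- two chains joined by a third one -/
theorem link_seg {G : SimpleGraph V} {A X B : List V} {s t u v : V} (hA : Seg G A s t)
    (hX : (t :: (X ++ [u])).IsChain G.Adj) (hB : Seg G B u v) :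
    Seg G (A ++ (X ++ B)) s v := by
  have h1 : (t :: (X ++ B)).IsChain G.Adj := by
    rw [← List.cons_append, List.isChain_append] at hX ⊢
    refine ⟨hX.1, hB.ch, ?_⟩
    intro x hx y hy
    rw [hB.hd] at hy
    simp only [Option.mem_def, Option.some.injEq] at hy
    exact hX.2.2 x hx y (by simp [hy])
  refine ⟨?_, ?_, ?_⟩
  · rw [List.isChain_append]
    refine ⟨hA.ch, (List.isChain_cons.1 h1).2, ?_⟩
    intro x hx y hy
    rw [hA.lt] at hx
    simp only [Option.mem_def, Option.some.injEq] at hx
    subst hx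
    exact (List.isChain_cons.1 h1).1 y hy
  · rw [List.head?_append, hA.hd]
    rfl
  · rw [List.getLast?_append, List.getLast?_append, hB.lt]
    simp

/-- replacing cycles of a best family -/
theorem better {G : SimpleGraph V} {j : ℕ} {L : List (List V)} (hM : IsMax G j L)
    {N P0 Z lost : List V} {L' : List (List V)} (hN : CycL G N) (hNp : N.Perm (P0 ++ Z))
    (hperm : L.flatten.Perm (P0 ++ (lost ++ L'.flatten))) (hL' : ∀ c ∈ L', CycL G c)
    (hlen : L'.length + 1 ≤ L.length) (hZ : ∀ x ∈ Z, x ∉ L.flatten) :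
    Z.length ≤ lost.length := by
  have hnod : (P0 ++ (lost ++ L'.flatten)).Nodup := hperm.nodup_iff.1 hM.fam.nod
  have hmem : ∀ x, x ∈ P0 ++ (lost ++ L'.flatten) → x ∈ L.flatten := fun x hx =>
    hperm.mem_iff.2 hx
  have h1 := hM.max (N :: L') ⟨?_, ?_⟩ (by
    rw [List.length_cons]
    exact hlen.trans hM.len)
  · have h2 := hperm.length_eq
    have h4 := hNp.length_eq
    simp only [List.flatten_cons, List.length_append] at h1 h2 h4
    omega
  · intro c hcL
    rcases List.mem_cons.1 hcL with rfl | h
    · exact hN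
    · exact hL' c h
  · rw [List.flatten_cons, List.nodup_append]
    have h2 := List.nodup_append.1 hnod
    have h3 := List.nodup_append.1 h2.2.1
    refine ⟨hN.1, h3.2.1, ?_⟩
    rintro x hx y hy rfl
    rcases List.mem_append.1 (hNp.mem_iff.1 hx) with h | h
    · exact h2.2.2 x h x (List.mem_append_right _ hy) rfl
    · exact hZ x h (hmem x (by simp [hy]))

/-- one place: the cycle `P ++ X` replaces a cycle -/
theorem core1 {G : SimpleGraph V} {j : ℕ} {L : List (List V)} (hM : IsMax G j L)
    {P X lost : List V} {L' : List (List V)} {w u : V} (hP : Seg G P w u)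
    (hperm : L.flatten.Perm (P ++ (lost ++ L'.flatten))) (hL' : ∀ c ∈ L', CycL G c)
    (hlen : L'.length + 1 ≤ L.length) (hX : (u :: (X ++ [w])).IsChain G.Adj) (hXn : X.Nodup)
    (hXd : ∀ x ∈ X, x ∉ L.flatten) (h3 : 3 ≤ P.length + lost.length) :
    X.length ≤ lost.length := by
  by_contra hcon
  push Not at hcon
  have hnod : (P ++ (lost ++ L'.flatten)).Nodup := hperm.nodup_iff.1 hM.fam.nod
  have hPX : (P ++ X).Nodup := by
    rw [List.nodup_append]
    refine ⟨(List.nodup_append.1 hnod).1, hXn, ?_⟩
    rintro x hx y hy rfl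
    exact hXd x hy (hperm.mem_iff.2 (List.mem_append_left _ hx))
  have := better hM (close_seg hP hX hPX (by omega)) (List.Perm.refl _) hperm hL' hlen hXd
  omega

/-- two places: the cycle `P ++ X ++ R.reverse ++ Y` replaces one or two cycles -/
theorem core2 {G : SimpleGraph V} {j : ℕ} {L : List (List V)} (hM : IsMax G j L)
    {P R X Y lost : List V} {L' : List (List V)} {w1 w2 a b : V} (hP : Seg G P w1 a)
    (hR : Seg G R w2 b) (hperm : L.flatten.Perm (P ++ (R ++ (lost ++ L'.flatten))))
    (hL' : ∀ c ∈ L', CycL G c) (hlen : L'.length + 1 ≤ L.length)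
    (hX : (a :: (X ++ [b])).IsChain G.Adj) (hY : (w2 :: (Y ++ [w1])).IsChain G.Adj)
    (hn : (X ++ Y).Nodup) (hd : ∀ x ∈ X ++ Y, x ∉ L.flatten)
    (h3 : 3 ≤ P.length + R.length + lost.length) :
    X.length + Y.length ≤ lost.length := by
  by_contra hcon
  push Not at hcon
  have hperm2 : L.flatten.Perm ((P ++ R) ++ (lost ++ L'.flatten)) := by
    rw [List.append_assoc]
    exact hperm
  have hnod : ((P ++ R) ++ (lost ++ L'.flatten)).Nodup := hperm2.nodup_iff.1 hM.fam.nod
  have hNp : ((P ++ (X ++ R.reverse)) ++ Y).Perm ((P ++ R) ++ (X ++ Y)) := by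
    have h1 : ((P ++ (X ++ R.reverse)) ++ Y) = P ++ ((X ++ R.reverse) ++ Y) := by simp
    have h2 : ((P ++ R) ++ (X ++ Y)) = P ++ ((R ++ X) ++ Y) := by simp
    rw [h1, h2]
    apply List.Perm.append_left
    apply List.Perm.append_right
    exact List.perm_append_comm.trans ((List.reverse_perm R).append_right X)
  have hnN : ((P ++ (X ++ R.reverse)) ++ Y).Nodup := by
    rw [hNp.nodup_iff, List.nodup_append]
    refine ⟨(List.nodup_append.1 hnod).1, hn, ?_⟩
    rintro x hx y hy rfl
    exact hd x hy (hperm2.mem_iff.2 (List.mem_append_left _ hx))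
  have hN := close_seg (link_seg hP hX hR.rev) hY hnN (by
    simp only [List.length_append, List.length_reverse]
    omega)
  have := better hM hN hNp hperm2 hL' hlen hd
  rw [List.length_append] at this
  omega

theorem chain_rev {G : SimpleGraph V} {a b : V} {X : List V}
    (h : (a :: (X ++ [b])).IsChain G.Adj) : (b :: (X.reverse ++ [a])).IsChain G.Adj := by
  have h1 : (b :: (X.reverse ++ [a])) = (a :: (X ++ [b])).reverse := by simp
  rw [h1, List.isChain_reverse]
  exact h.imp (fun _ _ h => h.symm)

/-- insertion between `prv w` and `w` -/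
theorem ins0 {G : SimpleGraph V} {j : ℕ} {L : List (List V)} (hM : IsMax G j L) {w : V}
    (hw : w ∈ L.flatten) {X : List V} (hX : (prv L w :: (X ++ [w])).IsChain G.Adj)
    (hXn : X.Nodup) (hXd : ∀ x ∈ X, x ∉ L.flatten) : X = [] := by
  obtain ⟨P, L', hP, h3, hperm, hL', hlen⟩ := place1 hM.fam hw
  have := core1 hM (lost := []) (hP.seg hM.fam (fun x hx => hperm.mem_iff.2 (by simp [hx])))
    (by simpa using hperm) hL' hlen.le hX hXn hXd (by simpa using h3)
  simpa using this

/-- insertion instead of `prv w` -/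
theorem ins1 {G : SimpleGraph V} {j : ℕ} {L : List (List V)} (hM : IsMax G j L) {w : V}
    (hw : w ∈ L.flatten) {X : List V} (hX : (prv L (prv L w) :: (X ++ [w])).IsChain G.Adj)
    (hXn : X.Nodup) (hXd : ∀ x ∈ X, x ∉ L.flatten) : X.length ≤ 1 := by
  obtain ⟨P, L', hP, h3, hperm, hL', hlen⟩ := place1 hM.fam hw
  obtain ⟨P', rfl, hP'⟩ := hP.drop (prv_adj hM.fam hw).ne.symm
  have hperm2 : L.flatten.Perm (P' ++ ([prv L w] ++ L'.flatten)) := by
    rw [← List.append_assoc]
    exact hperm
  have := core1 hM (hP'.seg hM.fam (fun x hx => hperm.mem_iff.2 (by simp [hx])))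
    hperm2 hL' hlen.le hX hXn hXd (by simpa using h3)
  simpa using this

theorem cross00 {G : SimpleGraph V} {j : ℕ} {L : List (List V)} (hM : IsMax G j L) {w1 w2 : V}
    (hw1 : w1 ∈ L.flatten) (hw2 : w2 ∈ L.flatten) (hne : w1 ≠ w2) {X Y : List V}
    (hX : (prv L w1 :: (X ++ [prv L w2])).IsChain G.Adj)
    (hY : (w1 :: (Y ++ [w2])).IsChain G.Adj) (hn : (X ++ Y).Nodup)
    (hd : ∀ x ∈ X ++ Y, x ∉ L.flatten) : X = [] ∧ Y = [] := by
  obtain ⟨P, R, L', hperm, hL', hlen, h3, hPR⟩ := place2 hM.fam hw1 hw2 hne
  have hPm : ∀ x ∈ P, x ∈ L.flatten := fun x hx => hperm.mem_iff.2 (by simp [hx])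
  have hRm : ∀ x ∈ R, x ∈ L.flatten := fun x hx => hperm.mem_iff.2 (by simp [hx])
  have hn' : (X.reverse ++ Y.reverse).Nodup :=
    (((List.reverse_perm X).append (List.reverse_perm Y)).nodup_iff).2 hn
  have hn'' : (X ++ Y.reverse).Nodup :=
    (((List.Perm.refl X).append (List.reverse_perm Y)).nodup_iff).2 hn
  have key : X.length + Y.length ≤ ([] : List V).length := by
    rcases hPR with ⟨hP, hR⟩ | ⟨hP, hR⟩
    · have := core2 hM (lost := []) (hP.seg hM.fam hPm) (hR.seg hM.fam hRm)
        (by simpa using hperm) hL' hlen (chain_rev hX) (chain_rev hY) hn'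
        (by
          intro x hx
          apply hd x
          simpa using hx) (by simpa using h3)
      simpa using this
    · have := core2 hM (lost := []) (hP.seg hM.fam hPm) (hR.seg hM.fam hRm)
        (by simpa using hperm) hL' hlen hX (chain_rev hY) hn''
        (by
          intro x hx
          apply hd x
          simpa using hx) (by simpa using h3)
      simpa using this
  simpa using key

/-- the vertex `prv w1` is dropped -/
theorem cross10 {G : SimpleGraph V} {j : ℕ} {L : List (List V)} (hM : IsMax G j L) {w1 w2 : V}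
    (hw1 : w1 ∈ L.flatten) (hw2 : w2 ∈ L.flatten) (hne : w1 ≠ w2) (h1 : prv L w1 ≠ w2)
    {X Y : List V} (hX : (prv L (prv L w1) :: (X ++ [prv L w2])).IsChain G.Adj)
    (hY : (w1 :: (Y ++ [w2])).IsChain G.Adj) (hn : (X ++ Y).Nodup)
    (hd : ∀ x ∈ X ++ Y, x ∉ L.flatten) : X.length + Y.length ≤ 1 := by
  obtain ⟨P, R, L', hperm, hL', hlen, h3, hPR⟩ := place2 hM.fam hw1 hw2 hne
  have hPm : ∀ x ∈ P, x ∈ L.flatten := fun x hx => hperm.mem_iff.2 (by simp [hx])
  have hRm : ∀ x ∈ R, x ∈ L.flatten := fun x hx => hperm.mem_iff.2 (by simp [hx])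
  have hn' : (X.reverse ++ Y.reverse).Nodup :=
    (((List.reverse_perm X).append (List.reverse_perm Y)).nodup_iff).2 hn
  have hn'' : (X ++ Y.reverse).Nodup :=
    (((List.Perm.refl X).append (List.reverse_perm Y)).nodup_iff).2 hn
  rcases hPR with ⟨hP, hR⟩ | ⟨hP, hR⟩
  · obtain ⟨R', rfl, hR'⟩ := hR.drop h1.symm
    have hperm2 : L.flatten.Perm (P ++ (R' ++ ([prv L w1] ++ L'.flatten))) := by
      refine hperm.trans ?_
      simp
    have := core2 hM (hP.seg hM.fam hPm) (hR'.seg hM.fam (fun x hx => hRm x (by simp [hx])))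
      hperm2 hL' hlen (chain_rev hX) (chain_rev hY) hn'
      (by
        intro x hx
        apply hd x
        simpa using hx) (by
        simp only [List.length_append, List.length_singleton] at h3 ⊢
        omega)
    simpa using this
  · obtain ⟨P', rfl, hP'⟩ := hP.drop (prv_adj hM.fam hw1).ne.symm
    have hperm2 : L.flatten.Perm (P' ++ (R ++ ([prv L w1] ++ L'.flatten))) := by
      refine hperm.trans ?_
      rw [List.append_assoc]
      apply List.Perm.append_left
      rw [← List.append_assoc, ← List.append_assoc]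
      exact (List.perm_append_comm).append_right _
    have := core2 hM (hP'.seg hM.fam (fun x hx => hPm x (by simp [hx]))) (hR.seg hM.fam hRm)
      hperm2 hL' hlen hX (chain_rev hY) hn''
      (by
        intro x hx
        apply hd x
        simpa using hx) (by
        simp only [List.length_append, List.length_singleton] at h3 ⊢
        omega)
    simpa using this

/-- the vertices `prv w1` and `prv w2` are dropped -/
theorem cross11 {G : SimpleGraph V} {j : ℕ} {L : List (List V)} (hM : IsMax G j L) {w1 w2 : V}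
    (hw1 : w1 ∈ L.flatten) (hw2 : w2 ∈ L.flatten) (hne : w1 ≠ w2) (h1 : prv L w1 ≠ w2)
    (h2 : prv L w2 ≠ w1) {X Y : List V}
    (hX : (prv L (prv L w1) :: (X ++ [prv L (prv L w2)])).IsChain G.Adj)
    (hY : (w1 :: (Y ++ [w2])).IsChain G.Adj) (hn : (X ++ Y).Nodup)
    (hd : ∀ x ∈ X ++ Y, x ∉ L.flatten) : X.length + Y.length ≤ 2 := by
  obtain ⟨P, R, L', hperm, hL', hlen, h3, hPR⟩ := place2 hM.fam hw1 hw2 hne
  have hPm : ∀ x ∈ P, x ∈ L.flatten := fun x hx => hperm.mem_iff.2 (by simp [hx])
  have hRm : ∀ x ∈ R, x ∈ L.flatten := fun x hx => hperm.mem_iff.2 (by simp [hx])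
  have hn' : (X.reverse ++ Y.reverse).Nodup :=
    (((List.reverse_perm X).append (List.reverse_perm Y)).nodup_iff).2 hn
  have hn'' : (X ++ Y.reverse).Nodup :=
    (((List.Perm.refl X).append (List.reverse_perm Y)).nodup_iff).2 hn
  rcases hPR with ⟨hP, hR⟩ | ⟨hP, hR⟩
  · obtain ⟨R', rfl, hR'⟩ := hR.drop h1.symm
    obtain ⟨P', rfl, hP'⟩ := hP.drop h2.symm
    have hperm2 : L.flatten.Perm (P' ++ (R' ++ ([prv L w1, prv L w2] ++ L'.flatten))) := by
      refine hperm.trans ?_
      rw [List.append_assoc]
      apply List.Perm.append_left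
      have e1 : [prv L w2] ++ (R' ++ [prv L w1] ++ L'.flatten) =
          ([prv L w2] ++ (R' ++ [prv L w1])) ++ L'.flatten := by simp
      have e2 : R' ++ ([prv L w1, prv L w2] ++ L'.flatten) =
          ((R' ++ [prv L w1]) ++ [prv L w2]) ++ L'.flatten := by simp
      rw [e1, e2]
      exact List.perm_append_comm.append_right _
    have := core2 hM (hP'.seg hM.fam (fun x hx => hPm x (by simp [hx])))
      (hR'.seg hM.fam (fun x hx => hRm x (by simp [hx])))
      hperm2 hL' hlen (chain_rev hX) (chain_rev hY) hn'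
      (by
        intro x hx
        apply hd x
        simpa using hx) (by
        simp only [List.length_append, List.length_singleton, List.length_cons,
          List.length_nil] at h3 ⊢
        omega)
    simpa using this
  · obtain ⟨P', rfl, hP'⟩ := hP.drop (prv_adj hM.fam hw1).ne.symm
    obtain ⟨R', rfl, hR'⟩ := hR.drop (prv_adj hM.fam hw2).ne.symm
    have hperm2 : L.flatten.Perm (P' ++ (R' ++ ([prv L w2, prv L w1] ++ L'.flatten))) := by
      refine hperm.trans ?_
      rw [List.append_assoc]
      apply List.Perm.append_left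
      have e1 : [prv L w1] ++ (R' ++ [prv L w2] ++ L'.flatten) =
          ([prv L w1] ++ (R' ++ [prv L w2])) ++ L'.flatten := by simp
      have e2 : R' ++ ([prv L w2, prv L w1] ++ L'.flatten) =
          ((R' ++ [prv L w2]) ++ [prv L w1]) ++ L'.flatten := by simp
      rw [e1, e2]
      exact List.perm_append_comm.append_right _
    have := core2 hM (hP'.seg hM.fam (fun x hx => hPm x (by simp [hx])))
      (hR'.seg hM.fam (fun x hx => hRm x (by simp [hx])))
      hperm2 hL' hlen hX (chain_rev hY) hn''
      (by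
        intro x hx
        apply hd x
        simpa using hx) (by
        simp only [List.length_append, List.length_singleton, List.length_cons,
          List.length_nil] at h3 ⊢
        omega)
    simpa using this

end Pool.Agent.TFB
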