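import Pool.Agent.TFC.Codeg

/-! Families of disjoint cycles that cover as many vertices as possible: definitions. -/

namespace Pool.Agent.TFB

open List Pool.Agent.TF82 Pool.Agent.TFC

universe u

set_option linter.unusedSectionVars false
set_option linter.unusedVariables false

variable {V : Type u} [DecidableEq V]

/-- a family of disjoint cycles -/
structure Fam (G : SimpleGraph V) (L : List (List V)) : Prop where
  cyc : ∀ c ∈ L, CycL G c
  nod : L.flatten.Nodup

/-- at most `j` disjoint cycles that cover as many vertices as possible -/
structure IsMax (G : SimpleGraph V) (j : ℕ) (L : List (List V)) : Prop where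
  fam : Fam G L
  len : L.length ≤ j
  max : ∀ L', Fam G L' → L'.length ≤ j → L'.flatten.length ≤ L.flatten.length

/-- the uncovered vertices -/
def unc [Fintype V] (L : List (List V)) : Finset V :=
  Finset.univ.filter (fun x => x ∉ L.flatten)

open Classical in
/-- the vertex before `x` on its cycle -/
noncomputable def prv (L : List (List V)) (x : V) : V :=
  if h : ∃ c ∈ L, x ∈ c then h.choose.prev x h.choose_spec.2 else x

/-- a list running along a cycle of the family, from `s` to `t` -/
structure PSeg (L : List (List V)) (P : List V) (s t : V) : Prop where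
  ch : P.IsChain (fun x y => prv L y = x)
  hd : P.head? = some s
  lt : P.getLast? = some t

open Classical in
/-- the covered vertices adjacent to the component of `y` in the uncovered part -/
noncomputable def att [Fintype V] (G : SimpleGraph V) (L : List (List V)) (y : V) : Finset V :=
  Finset.univ.filter (fun w => w ∈ L.flatten ∧ ∃ x, Reach G (unc L) y x ∧ G.Adj w x)

open Classical in
/-- the component of `y` in the uncovered part -/
noncomputable def comp [Fintype V] (G : SimpleGraph V) (L : List (List V)) (y : V) : Finset V :=
  (unc L).filter (fun x => Reach G (unc L) y x)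

theorem mem_unc [Fintype V] {L : List (List V)} {x : V} : x ∈ unc L ↔ x ∉ L.flatten := by
  simp [unc]

theorem mem_att [Fintype V] {G : SimpleGraph V} {L : List (List V)} {y w : V} :
    w ∈ att G L y ↔ w ∈ L.flatten ∧ ∃ x, Reach G (unc L) y x ∧ G.Adj w x := by
  simp [att]

theorem mem_comp [Fintype V] {G : SimpleGraph V} {L : List (List V)} {y x : V} :
    x ∈ comp G L y ↔ x ∈ unc L ∧ Reach G (unc L) y x := by
  simp [comp]

theorem prv_eq {G : SimpleGraph V} {L : List (List V)} (hL : Fam G L) {c : List V} (hc : c ∈ L)
    {x : V} (hx : x ∈ c) : prv L x = c.prev x hx := by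
  have h : ∃ c ∈ L, x ∈ c := ⟨c, hc, hx⟩
  have h1 : h.choose = c := by
    by_contra hne
    have h2 := (List.nodup_flatten.1 hL.nod).2
    have : Std.Symm (List.Disjoint : List V → List V → Prop) := ⟨fun _ _ h => h.symm⟩
    exact h2.forall h.choose_spec.1 hc hne h.choose_spec.2 hx
  unfold prv
  rw [dif_pos h]
  simp only [h1]

end Pool.Agent.TFB
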