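import Pool.Agent.TFB.Att

/-! M6 (file ECross.lean): attachments of one component against those of another. -/

namespace Pool.Agent.TFB

open List Pool.Agent.TF82 Pool.Agent.TFC

universe u

set_option linter.unusedSectionVars false
set_option linter.unusedVariables false

variable {V : Type u} [DecidableEq V]

/-- the vertices of a path inside `U` are reachable from its first vertex -/
theorem chain_reach {G : SimpleGraph V} {U : Finset V} : ∀ (q : List V) (a : V),
    q.IsChain G.Adj → q.head? = some a → (∀ x ∈ q, x ∈ U) → ∀ x ∈ q, Reach G U a x := by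
  intro q
  induction q with
  | nil => intro a _ h; simp at h
  | cons b q ih =>
    intro a hch hh hU x hx
    simp only [List.head?_cons, Option.some.injEq] at hh
    subst hh
    rcases List.mem_cons.1 hx with rfl | hx
    · exact Relation.ReflTransGen.refl
    · rcases q with _ | ⟨c, q⟩
      · simp at hx
      · rw [List.isChain_cons_cons] at hch
        have h1 := ih c hch.2 rfl (fun x hx => hU x (by simp [hx])) x hx
        exact Relation.ReflTransGen.head ⟨hU b (by simp), hU c (by simp), hch.1⟩ h1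

/-- a path inside a component, with chains at both ends -/
theorem comp_path2 [Fintype V] {G : SimpleGraph V} {L : List (List V)} {y a b u v : V}
    (hy : y ∈ unc L) (ha : Reach G (unc L) y a) (hb : Reach G (unc L) y b) (hu : G.Adj u a)
    (hv : G.Adj v b) : ∃ q : List V, q.Nodup ∧ (u :: (q ++ [v])).IsChain G.Adj ∧
      (∀ x ∈ q, x ∉ L.flatten ∧ Reach G (unc L) y x) ∧ q ≠ [] ∧ (a ≠ b → 2 ≤ q.length) := by
  have haU : a ∈ unc L := by
    rcases Relation.ReflTransGen.cases_tail ha with h | ⟨c, _, hc⟩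
    · rw [h]; exact hy
    · exact hc.2.1
  have hab : Reach G (unc L) a b := Relation.ReflTransGen.trans (Reach.symm ha) hb
  obtain ⟨q, h1, h2, h3, h4, h5⟩ := Reach.path hab haU
  refine ⟨q, h1, ?_, ?_, ?_, ?_⟩
  · rw [List.isChain_cons]
    constructor
    · intro x hx
      rcases q with _ | ⟨c, q⟩
      · simp at h3
      · simp at h3 hx
        rw [← hx, h3]; exact hu
    · rw [List.isChain_append]
      refine ⟨h2, by simp, ?_⟩
      intro x hx w hw
      rw [h4] at hx
      simp at hx hw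
      rw [← hx, ← hw]
      exact hv.symm
  · intro x hx
    exact ⟨mem_unc.1 (h5 x hx), Relation.ReflTransGen.trans ha (chain_reach q a h2 h3 h5 x hx)⟩
  · rintro rfl
    simp at h3
  · intro hne
    rcases q with _ | ⟨c, _ | ⟨d, q⟩⟩
    · simp at h3
    · simp at h3 h4
      exact absurd (h3.symm.trans h4) hne
    · simp

/-- every vertex of the component of `y` has two neighbours in it -/
theorem comp_two [Fintype V] {G : SimpleGraph V} [DecidableRel G.Adj]
    (hC : ∀ I : Finset V, G.IsIndepSet (I : Set V) → ∀ v ∈ I, I.card + 1 ≤ dU G Finset.univ v)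
    {j : ℕ} {L : List (List V)} (hM : IsMax G j L) {y : V} (hy : y ∈ unc L) {x : V}
    (hx : x ∈ comp G L y) : ∃ a b, a ∈ comp G L y ∧ b ∈ comp G L y ∧ a ≠ b ∧
      G.Adj x a ∧ G.Adj x b := by
  classical
  obtain ⟨hxU, hxr⟩ := mem_comp.1 hx
  have h1 := att_main hC hM hy {x} (by simp [SimpleGraph.IsIndepSet]) (by
    intro z hz
    rw [Finset.mem_singleton] at hz
    rw [hz]; exact hxr) (v := x) (by simp)
  rw [Finset.card_singleton] at h1
  have h2 : 1 < ((unc L).filter (fun w => G.Adj x w)).card := by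
    unfold dU at h1; omega
  obtain ⟨a, ha, b, hb, hab⟩ := Finset.one_lt_card.1 h2
  rw [Finset.mem_filter] at ha hb
  refine ⟨a, b, mem_comp.2 ⟨ha.1, ?_⟩, mem_comp.2 ⟨hb.1, ?_⟩, hab, ha.2, hb.2⟩
  · exact Relation.ReflTransGen.tail hxr ⟨hxU, ha.1, ha.2⟩
  · exact Relation.ReflTransGen.tail hxr ⟨hxU, hb.1, hb.2⟩

/-- two components: at most one predecessor of an attachment of the first is attached to the
second -/
theorem ec_unique [Fintype V] {G : SimpleGraph V} {j : ℕ} {L : List (List V)}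
    (hM : IsMax G j L) {y z : V} (hy : y ∈ unc L) (hz : z ∈ unc L)
    (hyz : ¬ Reach G (unc L) y z) {w w' : V} (hw : w ∈ att G L y) (hw' : w' ∈ att G L y)
    (hp : prv L w ∈ att G L z) (hp' : prv L w' ∈ att G L z) : w = w' := by
  by_contra hne
  obtain ⟨hwL, x, hx, hwx⟩ := mem_att.1 hw
  obtain ⟨hwL', x', hx', hwx'⟩ := mem_att.1 hw'
  obtain ⟨-, u, hu, hpu⟩ := mem_att.1 hp
  obtain ⟨-, u', hu', hpu'⟩ := mem_att.1 hp'
  obtain ⟨X, hX1, hX2, hX3, hX4, -⟩ := comp_path2 hz hu hu' hpu hpu'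
  obtain ⟨Y, hY1, hY2, hY3, hY4, -⟩ := comp_path2 hy hx hx' hwx hwx'
  have hn : (X ++ Y).Nodup := by
    rw [List.nodup_append]
    refine ⟨hX1, hY1, ?_⟩
    rintro a ha b hb rfl
    exact hyz (Relation.ReflTransGen.trans (hY3 a hb).2 (Reach.symm (hX3 a ha).2))
  have := cross00 hM hwL hwL' hne hX2 hY2 hn (by
    intro a ha
    rcases List.mem_append.1 ha with h | h
    · exact (hX3 a h).1
    · exact (hY3 a h).1)
  exact hX4 this.1

theorem ec_a [Fintype V] {G : SimpleGraph V} [DecidableRel G.Adj]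
    (hC : ∀ I : Finset V, G.IsIndepSet (I : Set V) → ∀ v ∈ I, I.card + 1 ≤ dU G Finset.univ v)
    {j : ℕ} {L : List (List V)} (hM : IsMax G j L) {y : V} (hy : y ∈ unc L) {s : V}
    (hs : s ∈ att G L y) (hfull : ∀ x ∈ comp G L y, G.Adj s x) :
    prv L (prv L s) ∉ att G L y := by
  intro hps
  obtain ⟨hsL, -⟩ := mem_att.1 hs
  obtain ⟨-, x', hx', hpx'⟩ := mem_att.1 hps
  have hx'U : x' ∈ unc L := by
    rcases Relation.ReflTransGen.cases_tail hx' with h | ⟨c, _, hc⟩
    · rw [h]; exact hy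
    · exact hc.2.1
  obtain ⟨a, -, ha, -, -, hxa, -⟩ := comp_two hC hM hy (mem_comp.2 ⟨hx'U, hx'⟩)
  obtain ⟨X, hX1, hX2, hX3, -, hX5⟩ := comp_path2 hy hx' (mem_comp.1 ha).2 hpx' (hfull a ha)
  have h1 := ins1 hM hsL hX2 hX1 (fun x hx => (hX3 x hx).1)
  have h2 := hX5 hxa.ne
  omega

theorem ec_d [Fintype V] {G : SimpleGraph V} {j : ℕ} {L : List (List V)}
    (hM : IsMax G j L) {y z : V} (hy : y ∈ unc L) (hz : z ∈ unc L)
    (hyz : ¬ Reach G (unc L) y z) {s s' : V} (hs : s ∈ att G L y) (hs' : s' ∈ att G L y)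
    (hne : s ≠ s') (hp : prv L s ∈ att G L z) : prv L (prv L s') ∉ att G L z := by
  intro hp'
  obtain ⟨hsL, x, hx, hsx⟩ := mem_att.1 hs
  obtain ⟨hsL', x', hx', hsx'⟩ := mem_att.1 hs'
  obtain ⟨-, u, hu, hpu⟩ := mem_att.1 hp
  obtain ⟨-, u', hu', hpu'⟩ := mem_att.1 hp'
  have hps : prv L s' ≠ s := by
    intro h
    exact att_noins hM hy hs' (by rw [h]; exact hs)
  obtain ⟨X, hX1, hX2, hX3, hX4, -⟩ := comp_path2 hz hu' hu hpu' hpu
  obtain ⟨Y, hY1, hY2, hY3, hY4, -⟩ := comp_path2 hy hx' hx hsx' hsx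
  have hn : (X ++ Y).Nodup := by
    rw [List.nodup_append]
    refine ⟨hX1, hY1, ?_⟩
    rintro a ha b hb rfl
    exact hyz (Relation.ReflTransGen.trans (hY3 a hb).2 (Reach.symm (hX3 a ha).2))
  have := cross10 hM hsL' hsL (Ne.symm hne) hps hX2 hY2 hn (by
    intro a ha
    rcases List.mem_append.1 ha with h | h
    · exact (hX3 a h).1
    · exact (hY3 a h).1)
  have h1 := List.length_pos_of_ne_nil hX4
  have h2 := List.length_pos_of_ne_nil hY4
  omega

theorem ec_e [Fintype V] {G : SimpleGraph V} [DecidableRel G.Adj]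
    (hC : ∀ I : Finset V, G.IsIndepSet (I : Set V) → ∀ v ∈ I, I.card + 1 ≤ dU G Finset.univ v)
    {j : ℕ} {L : List (List V)} (hM : IsMax G j L) {y : V} (hy : y ∈ unc L) {s s' : V}
    (hs : s ∈ att G L y) (hs' : s' ∈ att G L y) (hne : s ≠ s')
    (hfull : ∀ x ∈ comp G L y, G.Adj s x) (hfull' : ∀ x ∈ comp G L y, G.Adj s' x) :
    ¬ G.Adj (prv L (prv L s)) (prv L (prv L s')) := by
  intro hadj
  obtain ⟨hsL, -⟩ := mem_att.1 hs
  obtain ⟨hsL', -⟩ := mem_att.1 hs'
  have hyc : y ∈ comp G L y := mem_comp.2 ⟨hy, Relation.ReflTransGen.refl⟩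
  obtain ⟨a, b, ha, hb, hab, hya, hyb⟩ := comp_two hC hM hy hyc
  have hps : prv L s ≠ s' := by
    intro h
    exact att_noins hM hy hs (by rw [h]; exact hs')
  have hps' : prv L s' ≠ s := by
    intro h
    exact att_noins hM hy hs' (by rw [h]; exact hs)
  have := cross11 hM hsL hsL' hne hps hps' (X := []) (Y := [a, y, b]) (by simpa using hadj)
    (by
      simp only [List.cons_append, List.nil_append, List.isChain_cons_cons,
        List.isChain_singleton, and_true]
      exact ⟨hfull a ha, hya.symm, hyb, (hfull' b hb).symm⟩)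
    (by simp [hab, hya.ne.symm, hyb.ne]) (by
      intro x hx
      simp only [List.nil_append, List.mem_cons, List.not_mem_nil, or_false] at hx
      rcases hx with rfl | rfl | rfl
      · exact mem_unc.1 (mem_comp.1 ha).1
      · exact mem_unc.1 hy
      · exact mem_unc.1 (mem_comp.1 hb).1)
  simp at this

theorem ec_f [Fintype V] {G : SimpleGraph V} [DecidableRel G.Adj]
    (hC : ∀ I : Finset V, G.IsIndepSet (I : Set V) → ∀ v ∈ I, I.card + 1 ≤ dU G Finset.univ v)
    {j : ℕ} {L : List (List V)} (hM : IsMax G j L) {y : V} (hy : y ∈ unc L) {s r : V}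
    (hs : s ∈ att G L y) (hr : r ∈ att G L y) (hne : s ≠ r)
    (hfull : ∀ x ∈ comp G L y, G.Adj s x) (hfull' : ∀ x ∈ comp G L y, G.Adj r x) :
    ¬ G.Adj (prv L (prv L s)) (prv L r) := by
  intro hadj
  obtain ⟨hsL, -⟩ := mem_att.1 hs
  obtain ⟨hrL, -⟩ := mem_att.1 hr
  have hyc : y ∈ comp G L y := mem_comp.2 ⟨hy, Relation.ReflTransGen.refl⟩
  obtain ⟨a, b, ha, hb, hab, hya, hyb⟩ := comp_two hC hM hy hyc
  have hps : prv L s ≠ r := by
    intro h
    exact att_noins hM hy hs (by rw [h]; exact hr)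
  have := cross10 hM hsL hrL hne hps (X := []) (Y := [a, y]) (by simpa using hadj)
    (by
      simp only [List.cons_append, List.nil_append, List.isChain_cons_cons,
        List.isChain_singleton, and_true]
      exact ⟨hfull a ha, hya.symm, (hfull' y hyc).symm⟩)
    (by simp [hya.ne.symm]) (by
      intro x hx
      simp only [List.nil_append, List.mem_cons, List.not_mem_nil, or_false] at hx
      rcases hx with rfl | rfl
      · exact mem_unc.1 (mem_comp.1 ha).1
      · exact mem_unc.1 hy)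
  simp at this

end Pool.Agent.TFB
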