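import Pool.Agent.TFB.ECross

/-! M7 (file Few.lean): the uncovered part has few components. -/

namespace Pool.Agent.TFB

open List Pool.Agent.TF82 Pool.Agent.TFC

universe u

set_option linter.unusedSectionVars false
set_option linter.unusedVariables false

variable {V : Type u} [DecidableEq V]

/-- `R` contains at most one vertex of every component of the uncovered part. -/
theorem few_comps [Fintype V] {G : SimpleGraph V} [DecidableRel G.Adj]
    (hC : ∀ I : Finset V, G.IsIndepSet (I : Set V) → ∀ v ∈ I, I.card + 1 ≤ dU G Finset.univ v)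
    {j : ℕ} {L : List (List V)} (hM : IsMax G j L) {B : ℕ}
    (hB : ∀ y ∈ unc L, (comp G L y).card ≤ B) (R : Finset V) (hR : ∀ y ∈ R, y ∈ unc L)
    (hR2 : ∀ y ∈ R, ∀ z ∈ R, y ≠ z → ¬ Reach G (unc L) y z) :
    R.card ≤ 2 * B ^ 2 + 2 * B := by
  classical
  rcases R.eq_empty_or_nonempty with rfl | ⟨y1, hy1⟩
  · simp
  have hy1u := hR y1 hy1
  have hL := hM.fam
  have hSfl : ∀ s ∈ att G L y1, s ∈ L.flatten := fun s hs => (mem_att.1 hs).1
  have hattm : ∀ e w, w ∈ L.flatten → G.Adj w e → w ∈ att G L e :=
    fun e w hw h => mem_att.2 ⟨hw, e, Relation.ReflTransGen.refl, h⟩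
  have hRun : ∀ e ∈ R, e ∉ L.flatten := fun e he => mem_unc.1 (hR e he)
  have hRR : ∀ e ∈ R, ∀ e' ∈ R, ¬ G.Adj e e' := by
    intro e he e' he' h
    exact hR2 e he e' he' h.ne (Relation.ReflTransGen.single ⟨hR e he, hR e' he', h⟩)
  -- degrees inside the component
  have hdc : ∀ x ∈ comp G L y1, dU G (unc L) x + 1 ≤ B := by
    intro x hx
    rw [← dU_comp hx]
    have h1 : dU G (comp G L y1) x ≤ ((comp G L y1).erase x).card := by
      unfold dU
      apply Finset.card_le_card
      intro w hw
      rw [Finset.mem_filter] at hw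
      rw [Finset.mem_erase]
      exact ⟨fun h => G.loopless.irrefl x (h ▸ hw.2), hw.1⟩
    have h2 := Finset.card_erase_add_one hx
    have h3 := hB y1 hy1u
    omega
  have hcy : y1 ∈ comp G L y1 := mem_comp.2 ⟨hy1u, Relation.ReflTransGen.refl⟩
  have hdeg : dU G Finset.univ y1 + 1 ≤ (att G L y1).card + B := by
    have h1 := att_deg (G := G) (L := L) hy1u (v := y1) Relation.ReflTransGen.refl
    have h2 := hdc y1 hcy
    have h3 : ((att G L y1).filter (fun w => G.Adj y1 w)).card ≤ (att G L y1).card :=
      Finset.card_filter_le _ _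
    omega
  -- condition (C) for a set of representatives and a set of covered vertices
  have key : ∀ (R' T : Finset V), R' ⊆ R → y1 ∈ R' → (∀ t ∈ T, t ∈ L.flatten) →
      (∀ t ∈ T, ∀ t' ∈ T, ¬ G.Adj t t') → (∀ r ∈ R', ∀ t ∈ T, t ∉ att G L r) →
      R'.card + T.card + 2 ≤ (att G L y1).card + B := by
    intro R' T hR' hy1' hT hTi hRT
    have hind : G.IsIndepSet ((R' ∪ T : Finset V) : Set V) := by
      intro a ha b hb hab h
      rw [Finset.mem_coe, Finset.mem_union] at ha hb
      rcases ha with ha | ha
      · rcases hb with hb | hb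
        · exact hRR a (hR' ha) b (hR' hb) h
        · exact hRT a ha b hb (hattm a b (hT b hb) h.symm)
      · rcases hb with hb | hb
        · exact hRT b hb a ha (hattm b a (hT a ha) h)
        · exact hTi a ha b hb h
    have h1 := hC _ hind y1 (Finset.mem_union_left _ hy1')
    rw [Finset.card_union_of_disjoint] at h1
    · omega
    · rw [Finset.disjoint_left]
      intro a ha hb
      exact hRun a (hR' ha) (hT a hb)
  -- the two sets of attachments
  set S := att G L y1 with hS
  set PP := S.filter (fun s => ∃ e ∈ R.erase y1, prv L s ∈ att G L e) with hPP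
  set E1 := S.filter (fun s => ∃ x ∈ comp G L y1, ¬ G.Adj s x) with hE1
  set S' := S.filter (fun s => ∀ x ∈ comp G L y1, G.Adj s x) with hS'
  set Q := S'.filter (fun s => ∃ e ∈ R.erase y1, prv L s ∈ att G L e) with hQ
  have hinj : ∀ T : Finset V, T ⊆ S → (T.image (prv L)).card = T.card := by
    intro T hT
    apply Finset.card_image_of_injOn
    intro a ha b hb hab
    exact prv_inj hL (hSfl a (hT ha)) (hSfl b (hT hb)) hab
  have hPPS : PP ⊆ S := Finset.filter_subset _ _
  have hS'S : S' ⊆ S := Finset.filter_subset _ _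
  have hQS' : Q ⊆ S' := Finset.filter_subset _ _
  -- first application
  have app1 : R.card + 2 ≤ PP.card + B := by
    have h1 := key R ((S \ PP).image (prv L)) (Finset.Subset.refl _) hy1
      (by
        intro t ht
        obtain ⟨s, hs, rfl⟩ := Finset.mem_image.1 ht
        exact prv_mem hL (hSfl s (Finset.mem_sdiff.1 hs).1))
      (by
        intro t ht t' ht'
        obtain ⟨s, hs, rfl⟩ := Finset.mem_image.1 ht
        obtain ⟨s', hs', rfl⟩ := Finset.mem_image.1 ht'
        exact att_indep hM hy1u (Finset.mem_sdiff.1 hs).1 (Finset.mem_sdiff.1 hs').1)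
      (by
        intro r hr t ht
        obtain ⟨s, hs, rfl⟩ := Finset.mem_image.1 ht
        rw [Finset.mem_sdiff] at hs
        by_cases hry : r = y1
        · rw [hry]
          exact att_noins hM hy1u hs.1
        · intro h
          exact hs.2 (Finset.mem_filter.2 ⟨hs.1, r, Finset.mem_erase.2 ⟨hry, hr⟩, h⟩))
    rw [hinj _ Finset.sdiff_subset, Finset.card_sdiff_of_subset hPPS] at h1
    have h2 := Finset.card_le_card hPPS
    omega
  -- few attachments are not full
  have hE1c : E1.card ≤ B * B := by
    have h1 : E1 ⊆ (comp G L y1).biUnion (fun x => S.filter (fun w => ¬ G.Adj x w)) := by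
      intro s hs
      obtain ⟨h2, x, hx, h3⟩ := Finset.mem_filter.1 hs
      exact Finset.mem_biUnion.2 ⟨x, hx, Finset.mem_filter.2 ⟨h2, fun h => h3 h.symm⟩⟩
    calc E1.card ≤ _ := Finset.card_le_card h1
      _ ≤ (comp G L y1).card * B := by
          apply Finset.card_biUnion_le_card_mul
          intro x hx
          have h2 := att_main hC hM hy1u {x} (by simp [SimpleGraph.IsIndepSet])
            (by
              intro z hz
              rw [Finset.mem_singleton.1 hz]
              exact (mem_comp.1 hx).2) (Finset.mem_singleton_self x)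
          have h3 := hdc x hx
          rw [← hS] at h2
          omega
      _ ≤ B * B := Nat.mul_le_mul_right _ (hB y1 hy1u)
  have hPPc : PP.card ≤ Q.card + E1.card := by
    have h1 : PP ⊆ Q ∪ E1 := by
      intro s hs
      obtain ⟨h2, h3⟩ := Finset.mem_filter.1 hs
      rw [Finset.mem_union]
      by_cases h4 : ∀ x ∈ comp G L y1, G.Adj s x
      · left
        exact Finset.mem_filter.2 ⟨Finset.mem_filter.2 ⟨h2, h4⟩, h3⟩
      · right
        push Not at h4
        exact Finset.mem_filter.2 ⟨h2, h4⟩
    exact (Finset.card_le_card h1).trans (Finset.card_union_le _ _)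
  have hSS : S.card ≤ S'.card + E1.card := by
    have h1 : S ⊆ S' ∪ E1 := by
      intro s hs
      rw [Finset.mem_union]
      by_cases h4 : ∀ x ∈ comp G L y1, G.Adj s x
      · left
        exact Finset.mem_filter.2 ⟨hs, h4⟩
      · right
        push Not at h4
        exact Finset.mem_filter.2 ⟨hs, h4⟩
    exact (Finset.card_le_card h1).trans (Finset.card_union_le _ _)
  -- the representatives
  have : Nonempty V := ⟨y1⟩
  have hQe : ∀ s, ∃ e, s ∈ Q → e ∈ R ∧ e ≠ y1 ∧ prv L s ∈ att G L e := by
    intro s
    by_cases hs : s ∈ Q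
    · obtain ⟨_, e, he, h⟩ := Finset.mem_filter.1 hs
      rw [Finset.mem_erase] at he
      exact ⟨e, fun _ => ⟨he.2, he.1, h⟩⟩
    · exact ⟨y1, fun h => absurd h hs⟩
  choose e he using hQe
  have hQS : Q ⊆ S := hQS'.trans hS'S
  have hfull : ∀ s ∈ S', ∀ x ∈ comp G L y1, G.Adj s x := fun s hs => (Finset.mem_filter.1 hs).2
  have heinj : (Q.image e).card = Q.card := by
    apply Finset.card_image_of_injOn
    intro a ha b hb hab
    have h1 := he a ha
    have h2 := he b hb
    have hab' : e a = e b := hab
    refine ec_unique hM hy1u (hR _ h1.1) (hR2 _ hy1 _ h1.1 h1.2.1.symm) (hQS ha) (hQS hb)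
      h1.2.2 ?_
    rw [hab']
    exact h2.2.2
  have hppinj : (Q.image (fun s => prv L (prv L s))).card = Q.card := by
    apply Finset.card_image_of_injOn
    intro a ha b hb hab
    have h1 := hSfl a (hQS ha)
    have h2 := hSfl b (hQS hb)
    exact prv_inj hL h1 h2 (prv_inj hL (prv_mem hL h1) (prv_mem hL h2) hab)
  -- second application
  have app2 : Q.card + 3 ≤ E1.card + B := by
    have h1 := key (insert y1 (Q.image e))
      ((S' \ Q).image (prv L) ∪ Q.image (fun s => prv L (prv L s)))
      (by
        intro a ha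
        rcases Finset.mem_insert.1 ha with rfl | ha
        · exact hy1
        · obtain ⟨s, hs, rfl⟩ := Finset.mem_image.1 ha
          exact (he s hs).1)
      (Finset.mem_insert_self _ _)
      (by
        intro t ht
        rcases Finset.mem_union.1 ht with ht | ht
        · obtain ⟨s, hs, rfl⟩ := Finset.mem_image.1 ht
          exact prv_mem hL (hSfl s (hS'S (Finset.mem_sdiff.1 hs).1))
        · obtain ⟨s, hs, rfl⟩ := Finset.mem_image.1 ht
          exact prv_mem hL (prv_mem hL (hSfl s (hQS hs))))
      (by
        have hcr : ∀ r ∈ S' \ Q, ∀ s ∈ Q, ¬ G.Adj (prv L (prv L s)) (prv L r) := by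
          intro r hr s hs
          rw [Finset.mem_sdiff] at hr
          refine ec_f hC hM hy1u (hQS hs) (hS'S hr.1) ?_ (hfull s (hQS' hs)) (hfull r hr.1)
          rintro rfl
          exact hr.2 hs
        intro t ht t' ht'
        rcases Finset.mem_union.1 ht with ht | ht
        · obtain ⟨r, hr, rfl⟩ := Finset.mem_image.1 ht
          rcases Finset.mem_union.1 ht' with ht' | ht'
          · obtain ⟨r', hr', rfl⟩ := Finset.mem_image.1 ht'
            exact att_indep hM hy1u (hS'S (Finset.mem_sdiff.1 hr).1)
              (hS'S (Finset.mem_sdiff.1 hr').1)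
          · obtain ⟨s, hs, rfl⟩ := Finset.mem_image.1 ht'
            exact fun h => hcr r hr s hs h.symm
        · obtain ⟨s, hs, rfl⟩ := Finset.mem_image.1 ht
          rcases Finset.mem_union.1 ht' with ht' | ht'
          · obtain ⟨r, hr, rfl⟩ := Finset.mem_image.1 ht'
            exact hcr r hr s hs
          · obtain ⟨s', hs', rfl⟩ := Finset.mem_image.1 ht'
            by_cases hss : s = s'
            · rw [hss]
              exact G.loopless.irrefl _
            · exact ec_e hC hM hy1u (hQS hs) (hQS hs') hss (hfull s (hQS' hs))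
                (hfull s' (hQS' hs')))
      (by
        intro r hr t ht
        rcases Finset.mem_insert.1 hr with rfl | hr
        · rcases Finset.mem_union.1 ht with ht | ht
          · obtain ⟨s, hs, rfl⟩ := Finset.mem_image.1 ht
            exact att_noins hM hy1u (hS'S (Finset.mem_sdiff.1 hs).1)
          · obtain ⟨s, hs, rfl⟩ := Finset.mem_image.1 ht
            exact ec_a hC hM hy1u (hQS hs) (hfull s (hQS' hs))
        · obtain ⟨s, hs, rfl⟩ := Finset.mem_image.1 hr
          have h2 := he s hs
          rcases Finset.mem_union.1 ht with ht | ht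
          · obtain ⟨r, hr, rfl⟩ := Finset.mem_image.1 ht
            rw [Finset.mem_sdiff] at hr
            intro h
            exact hr.2 (Finset.mem_filter.2 ⟨hr.1, e s, Finset.mem_erase.2 ⟨h2.2.1, h2.1⟩, h⟩)
          · obtain ⟨s', hs', rfl⟩ := Finset.mem_image.1 ht
            by_cases hss : s = s'
            · rw [← hss]
              exact att_noins hM (hR _ h2.1) h2.2.2
            · exact ec_d hM hy1u (hR _ h2.1) (hR2 _ hy1 _ h2.1 h2.2.1.symm) (hQS hs)
                (hQS hs') hss h2.2.2)
    rw [Finset.card_insert_of_notMem, heinj, Finset.card_union_of_disjoint, hppinj,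
      hinj _ (Finset.sdiff_subset.trans hS'S), Finset.card_sdiff_of_subset hQS'] at h1
    · have h2 := Finset.card_le_card hQS'
      omega
    · rw [Finset.disjoint_left]
      intro a ha hb
      obtain ⟨r, hr, rfl⟩ := Finset.mem_image.1 ha
      obtain ⟨s, hs, h3⟩ := Finset.mem_image.1 hb
      rw [Finset.mem_sdiff] at hr
      have h4 : prv L s = r :=
        prv_inj hL (prv_mem hL (hSfl s (hQS hs))) (hSfl r (hS'S hr.1)) h3
      have h5 := att_noins hM hy1u (hQS hs)
      rw [h4] at h5
      exact h5 (hS'S hr.1)
    · intro h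
      obtain ⟨s, hs, h3⟩ := Finset.mem_image.1 h
      exact (he s hs).2.1 h3
  have : 2 * B ^ 2 + 2 * B = B * B + B * B + B + B := by ring
  omega

end Pool.Agent.TFB
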