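import Pool.Agent.TFB.CompB
import Pool.Agent.TFB.Few
import Pool.Agent.TFC.Main4

/-! Covers with a bounded number of cycles. -/

namespace Pool.Agent.TFB

open List Pool.Agent.TF82 Pool.Agent.TFC

universe u

set_option linter.unusedSectionVars false
set_option linter.unusedVariables false

variable {V : Type u} [DecidableEq V]

theorem exists_isMax [Fintype V] (G : SimpleGraph V) (j : ℕ) : ∃ L, IsMax G j L := by
  obtain ⟨m, ⟨L, h1, h2, h3⟩, hmax⟩ := exists_max_nat
    (fun m => ∃ L : List (List V), Fam G L ∧ L.length ≤ j ∧ L.flatten.length = m)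
    (Fintype.card V) ⟨0, [], ⟨by simp, by simp⟩, by simp, by simp⟩ (by
      rintro m ⟨L, h1, h2, rfl⟩
      rw [← List.toFinset_card_of_nodup h1.nod]
      exact Finset.card_le_univ _)
  exact ⟨L, h1, h2, fun L' h4 h5 => by rw [h3]; exact hmax _ ⟨L', h4, h5, rfl⟩⟩

/-- representatives of the components of the uncovered part -/
theorem exists_reps [Fintype V] (G : SimpleGraph V) (L : List (List V)) :
    ∃ R : Finset V, (∀ y ∈ R, y ∈ unc L) ∧
      (∀ y ∈ R, ∀ z ∈ R, y ≠ z → ¬ Reach G (unc L) y z) ∧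
      ∀ x ∈ unc L, ∃ y ∈ R, Reach G (unc L) y x := by
  obtain ⟨m, ⟨R, h1, h2, h3⟩, hmax⟩ := exists_max_nat
    (fun m => ∃ R : Finset V, (∀ y ∈ R, y ∈ unc L) ∧
      (∀ y ∈ R, ∀ z ∈ R, y ≠ z → ¬ Reach G (unc L) y z) ∧ R.card = m)
    (Fintype.card V) ⟨0, ∅, by simp, by simp, by simp⟩ (by
      rintro m ⟨R, h1, h2, rfl⟩
      exact Finset.card_le_univ _)
  refine ⟨R, h1, h2, ?_⟩
  intro x hx
  by_contra hcon
  push Not at hcon
  have hxR : x ∉ R := fun h => hcon x h Relation.ReflTransGen.refl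
  have := hmax (R.card + 1) ⟨insert x R, ?_, ?_, Finset.card_insert_of_notMem hxR⟩
  · omega
  · intro y hy
    rcases Finset.mem_insert.1 hy with rfl | hy
    · exact hx
    · exact h1 y hy
  · intro y hy z hz hyz
    rcases Finset.mem_insert.1 hy with h4 | h4 <;> rcases Finset.mem_insert.1 hz with h5 | h5
    · exact absurd (h4.trans h5.symm) hyz
    · rw [h4]
      exact fun h => hcon z h5 h.symm
    · rw [h5]
      exact hcon y h4
    · exact h2 y h4 z h5 hyz

theorem unc_card [Fintype V] {G : SimpleGraph V} [DecidableRel G.Adj]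
    (hC : ∀ I : Finset V, G.IsIndepSet (I : Set V) → ∀ v ∈ I, I.card + 1 ≤ dU G Finset.univ v)
    {j : ℕ} {L : List (List V)} (hM : IsMax G j L) {B : ℕ}
    (hB : ∀ y ∈ unc L, (comp G L y).card ≤ B) :
    (unc L).card ≤ (2 * B ^ 2 + 2 * B) * B := by
  obtain ⟨R, h1, h2, h3⟩ := exists_reps G L
  have h4 := few_comps hC hM hB R h1 h2
  have h5 : unc L ⊆ R.biUnion (fun y => comp G L y) := by
    intro x hx
    obtain ⟨y, hy, hyx⟩ := h3 x hx
    exact Finset.mem_biUnion.2 ⟨y, hy, mem_comp.2 ⟨hx, hyx⟩⟩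
  calc (unc L).card ≤ (R.biUnion (fun y => comp G L y)).card := Finset.card_le_card h5
    _ ≤ R.card * B := Finset.card_biUnion_le_card_mul _ _ _ (fun y hy => hB y (h1 y hy))
    _ ≤ _ := Nat.mul_le_mul_right _ h4

/-- condition (C) and minimum degree at least `n / t` -/
theorem cov_dense [Fintype V] {G : SimpleGraph V} [DecidableRel G.Adj]
    (hC : ∀ I : Finset V, G.IsIndepSet (I : Set V) → ∀ v ∈ I, I.card + 1 ≤ dU G Finset.univ v)
    {t : ℕ} (ht : 1 ≤ t) (hd : ∀ v, Fintype.card V ≤ t * dU G Finset.univ v) :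
    Cov G (1168 * t ^ 6) := by
  obtain ⟨L, hM⟩ := exists_isMax G (16 * t ^ 2)
  have h1 := unc_card hC hM (B := 8 * t ^ 2) (fun y hy => comp_card hC ht hd hM hy)
  obtain ⟨L2, h2, h3, h4, h5⟩ := cover_of_indep (unc L).card (unc L) (cloc_unc hC hM)
    (fun I hI _ => Finset.card_le_card hI)
  refine ⟨L ++ L2, ?_, ?_, ?_, ?_⟩
  · rw [List.length_append]
    have h6 := hM.len
    have h7 : t ^ 2 ≤ t ^ 6 := Nat.pow_le_pow_right ht (by norm_num)
    have h8 : t ^ 4 ≤ t ^ 6 := Nat.pow_le_pow_right ht (by norm_num)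
    have h9 : (2 * (8 * t ^ 2) ^ 2 + 2 * (8 * t ^ 2)) * (8 * t ^ 2) =
        1024 * t ^ 6 + 128 * t ^ 4 := by ring
    omega
  · intro c hc
    rcases List.mem_append.1 hc with h | h
    · exact hM.fam.cyc c h
    · exact h3 c h
  · rw [List.flatten_append, List.nodup_append]
    refine ⟨hM.fam.nod, h4, ?_⟩
    rintro x hx y hy rfl
    exact mem_unc.1 ((h5 x).1 hy) hx
  · intro x
    rw [List.flatten_append, List.mem_append]
    by_cases hx : x ∈ L.flatten
    · exact Or.inl hx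
    · exact Or.inr ((h5 x).2 (mem_unc.2 hx))

theorem Cov.mono {G : SimpleGraph V} {k l : ℕ} (h : Cov G k) (hkl : k ≤ l) : Cov G l := by
  obtain ⟨L, h1, h2, h3, h4⟩ := h
  exact ⟨L, h1.trans hkl, h2, h3, h4⟩

/-- every degree is more than half of the independence number -/
theorem indep_deg [Fintype V] {G : SimpleGraph V} [DecidableRel G.Adj]
    (hC : ∀ I : Finset V, G.IsIndepSet (I : Set V) → ∀ v ∈ I, I.card + 1 ≤ dU G Finset.univ v)
    (I : Finset V) (hI : G.IsIndepSet (I : Set V)) (v : V) :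
    I.card + 2 ≤ 2 * dU G Finset.univ v := by
  have h2 : 2 ≤ dU G Finset.univ v := by
    have := hC {v} (by simp [SimpleGraph.IsIndepSet]) v (by simp)
    simpa using this
  by_cases hv : v ∈ I
  · have := hC I hI v hv
    omega
  · have h3 : (I.filter (fun w => G.Adj v w)).card ≤ dU G Finset.univ v := by
      unfold dU
      apply Finset.card_le_card
      intro w hw
      rw [Finset.mem_filter] at hw ⊢
      exact ⟨Finset.mem_univ _, hw.2⟩
    have h4 := hC (insert v (I.filter (fun w => ¬ G.Adj v w))) (by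
      intro a ha b hb hab
      rw [Finset.mem_coe, Finset.mem_insert, Finset.mem_filter] at ha hb
      rcases ha with rfl | ha <;> rcases hb with rfl | hb
      · exact absurd rfl hab
      · exact hb.2
      · exact fun h => ha.2 h.symm
      · exact hI ha.1 hb.1 hab) v (Finset.mem_insert_self _ _)
    rw [Finset.card_insert_of_notMem (by
      rw [Finset.mem_filter]
      exact fun h => hv h.1)] at h4
    have h5 := Finset.card_filter_add_card_filter_not (s := I) (fun w => G.Adj v w)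
    omega

theorem cov_bounded [Fintype V] (k : ℕ) (G : SimpleGraph V) [DecidableRel G.Adj]
    (hC : ∀ I : Finset V, G.IsIndepSet (I : Set V) → ∀ v ∈ I, I.card + 1 ≤ dU G Finset.univ v)
    (hσ : ∀ I : Finset V, G.IsIndepSet (I : Set V) → I.card = k + 1 →
      Fintype.card V ≤ ∑ v ∈ I, dU G Finset.univ v) : Cov G (5 * 10 ^ 6 * (k + 1) ^ 12) := by
  rcases isEmpty_or_nonempty V with hV | ⟨⟨x0⟩⟩
  · exact ⟨[], by simp, by simp, by simp, fun x => (hV.false x).elim⟩
  obtain ⟨a, ⟨I, hI, hs⟩, hmax⟩ := exists_max_nat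
    (fun s => ∃ I : Finset V, G.IsIndepSet (I : Set V) ∧ I.card = s) (Fintype.card V)
    ⟨0, ∅, by simp [SimpleGraph.IsIndepSet], by simp⟩ (by
      rintro s ⟨I, hI, rfl⟩
      exact Finset.card_le_univ _)
  have ha : 1 ≤ a := hmax 1 ⟨{x0}, by simp [SimpleGraph.IsIndepSet], by simp⟩
  have hk12 : 1 ≤ (k + 1) ^ 12 := Nat.one_le_pow _ _ (by omega)
  rcases Nat.lt_or_ge (Fintype.card V) (k * (k + 2) * a + k * (k + 1) ^ 3) with hn | hn
  swap
  · apply Cov.mono (cover_main4 k a ha hn _ G le_rfl hC hσ (by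
      intro J hJ hJc
      have := hmax _ ⟨J, hJ, rfl⟩
      omega))
    have : k + 1 ≤ (k + 1) ^ 12 := Nat.le_self_pow (by norm_num) _
    omega
  have hk : 1 ≤ k := by
    rcases Nat.eq_zero_or_pos k with h | h
    · rw [h] at hn
      simp at hn
    · exact h
  rcases Nat.lt_or_ge (Fintype.card V) (2 * (k * (k + 1) ^ 3)) with h1 | h1
  · obtain ⟨L2, h2, h3, h4, h5⟩ := cover_of_indep (Fintype.card V) Finset.univ
      (fun I _ hI _ v hv => hC I hI v hv) (fun I _ _ => Finset.card_le_univ I)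
    refine Cov.mono ⟨L2, h2, h3, h4, fun x => (h5 x).2 (Finset.mem_univ _)⟩ ?_
    have h6 : 2 * (k * (k + 1) ^ 3) ≤ 2 * ((k + 1) * (k + 1) ^ 3) := by
      apply Nat.mul_le_mul_left
      exact Nat.mul_le_mul_right _ (by omega)
    have h7 : (k + 1) * (k + 1) ^ 3 = (k + 1) ^ 4 := by ring
    have h8 : (k + 1) ^ 4 ≤ (k + 1) ^ 12 := Nat.pow_le_pow_right (by omega) (by norm_num)
    omega
  · refine Cov.mono (cov_dense hC (t := 4 * (k * (k + 2))) ?_ ?_) ?_
    · nlinarith
    · intro v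
      have h2 := indep_deg hC I hI v
      rw [hs] at h2
      have h3 : k * (k + 2) * a ≤ k * (k + 2) * (2 * dU G Finset.univ v) :=
        Nat.mul_le_mul_left _ (by omega)
      have h4 : 4 * (k * (k + 2)) * dU G Finset.univ v =
          2 * (k * (k + 2) * (2 * dU G Finset.univ v)) := by ring
      omega
    · have h2 : (4 * (k * (k + 2))) ^ 6 = 4096 * (k * (k + 2)) ^ 6 := by ring
      have h3 : k * (k + 2) ≤ (k + 1) ^ 2 := by nlinarith
      have h4 : (k * (k + 2)) ^ 6 ≤ ((k + 1) ^ 2) ^ 6 := Nat.pow_le_pow_left h3 6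
      have h5 : ((k + 1) ^ 2) ^ 6 = (k + 1) ^ 12 := by ring
      rw [h2]
      omega

end Pool.Agent.TFB
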