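import Pool.Agent.TFB.Cross

/-! M3 (file Hub.lean): common neighbours of the ends of an uncovered path; uncovered cycles. -/

namespace Pool.Agent.TFB

open List Pool.Agent.TF82 Pool.Agent.TFC

universe u

set_option linter.unusedSectionVars false
set_option linter.unusedVariables false

variable {V : Type u} [DecidableEq V]

/-- gaps of length at least `g` between the elements of `T` -/
theorem filter_gap (T : Finset V) (g : ℕ) : ∀ l : List V,
    (∀ A u lost w B, l = A ++ u :: (lost ++ w :: B) → u ∈ T → w ∈ T → (∀ z ∈ lost, z ∉ T) →
      g ≤ lost.length) →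
    (∀ A u lost, l = A ++ u :: lost → u ∈ T → (∀ z ∈ lost, z ∉ T) → g ≤ lost.length) →
    (l.filter (fun z => decide (z ∈ T))).length * (g + 1) ≤
      (l.dropWhile (fun z => decide (z ∉ T))).length := by
  intro l
  induction l with
  | nil => intro _ _; simp
  | cons a l ih =>
    intro h1 h2
    have ih' := ih
      (fun A u lost w B hl hu hw hlost => h1 (a :: A) u lost w B (by rw [hl]; simp) hu hw hlost)
      (fun A u lost hl hu hlost => h2 (a :: A) u lost (by rw [hl]; simp) hu hlost)
    by_cases ha : a ∈ T
    · have e1 : ((a :: l).filter (fun z => decide (z ∈ T))) =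
          a :: (l.filter (fun z => decide (z ∈ T))) := by
        rw [List.filter_cons_of_pos (by simpa using ha)]
      have e2 : ((a :: l).dropWhile (fun z => decide (z ∉ T))) = a :: l := by
        rw [List.dropWhile_cons_of_neg (by simpa using ha)]
      rw [e1, e2]
      have hsplit : l.takeWhile (fun z => decide (z ∉ T)) ++
          l.dropWhile (fun z => decide (z ∉ T)) = l := List.takeWhile_append_dropWhile
      have hlost : ∀ z ∈ l.takeWhile (fun z => decide (z ∉ T)), z ∉ T := by
        intro z hz
        have := List.mem_takeWhile_imp hz
        simpa using this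
      have hlen : (l.takeWhile (fun z => decide (z ∉ T))).length +
          (l.dropWhile (fun z => decide (z ∉ T))).length = l.length := by
        rw [← List.length_append, hsplit]
      have hg : g ≤ (l.takeWhile (fun z => decide (z ∉ T))).length := by
        rcases hd : l.dropWhile (fun z => decide (z ∉ T)) with _ | ⟨w, B⟩
        · apply h2 [] a _ _ ha hlost
          rw [hd, List.append_nil] at hsplit
          rw [List.nil_append, hsplit]
        · have hw : w ∈ T := by
            have hne : l.dropWhile (fun z => decide (z ∉ T)) ≠ [] := by rw [hd]; simp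
            have := List.head_dropWhile_not (fun z => decide (z ∉ T)) hne
            simp only [hd, List.head_cons, decide_eq_false_iff_not, not_not] at this
            exact this
          apply h1 [] a _ w B _ ha hw hlost
          rw [hd] at hsplit
          rw [List.nil_append, hsplit]
      simp only [List.length_cons]
      nlinarith
    · have e1 : ((a :: l).filter (fun z => decide (z ∈ T))) =
          (l.filter (fun z => decide (z ∈ T))) := by
        rw [List.filter_cons_of_neg (by simpa using ha)]
      have e2 : ((a :: l).dropWhile (fun z => decide (z ∉ T))) =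
          l.dropWhile (fun z => decide (z ∉ T)) := by
        rw [List.dropWhile_cons_of_pos (by simpa using ha)]
      rw [e1, e2]
      exact ih'

theorem perm_erase_flatten {L : List (List V)} {c : List V} (hc : c ∈ L) :
    L.flatten.Perm (c ++ (L.erase c).flatten) := by
  have h := (List.perm_cons_erase hc).flatten
  simpa using h

/-- the vertices between two hubs -/
theorem gap_hub [Fintype V] {G : SimpleGraph V} {j : ℕ} {L : List (List V)}
    (hM : IsMax G j L) {X : List V} {x y : V} (hX : Seg G X x y) (hXn : X.Nodup)
    (hXd : ∀ z ∈ X, z ∉ L.flatten) {c P lost : List V} (hc : c ∈ L) (hr : c ~r (P ++ lost))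
    {w u : V} (hPw : P.head? = some w) (hPu : P.getLast? = some u) (hwy : G.Adj w y)
    (hux : G.Adj u x) : X.length ≤ lost.length := by
  have hcyc := (hM.fam.cyc c hc).of_isRotated hr
  have hch : P.IsChain G.Adj := (List.isChain_append.1 hcyc.2.2.1).1
  refine core1 hM (P := P) (X := X) (lost := lost) (L' := L.erase c) (w := w) (u := u)
    ⟨hch, hPw, hPu⟩ ?_ ?_ ?_ ?_ hXn hXd ?_
  · refine (perm_erase_flatten hc).trans ?_
    rw [← List.append_assoc]
    exact hr.perm.append_right _
  · intro d hd
    exact hM.fam.cyc d (List.mem_of_mem_erase hd)
  · rw [List.length_erase_of_mem hc]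
    have : 0 < L.length := List.length_pos_of_mem hc
    omega
  · rw [List.isChain_cons]
    constructor
    · intro z hz
      rw [List.head?_append, hX.hd] at hz
      simp only [Option.some_or, Option.mem_def, Option.some.injEq] at hz
      rw [← hz]
      exact hux
    · rw [List.isChain_append]
      refine ⟨hX.ch, by simp, ?_⟩
      intro a ha b hb
      rw [hX.lt] at ha
      simp only [Option.mem_def, Option.some.injEq, List.head?_cons] at ha hb
      rw [← ha, ← hb]
      exact hwy.symm
  · have := hcyc.2.1
    rw [List.length_append] at this
    exact this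

theorem hub_cycle [Fintype V] {G : SimpleGraph V} {j : ℕ} {L : List (List V)}
    (hM : IsMax G j L) {X : List V} {x y : V} (hX : Seg G X x y) (hXn : X.Nodup)
    (hXd : ∀ z ∈ X, z ∉ L.flatten) (T : Finset V)
    (hT : ∀ w ∈ T, w ∈ L.flatten ∧ G.Adj w x ∧ G.Adj w y) {c : List V} (hc : c ∈ L) :
    (c.filter (fun z => decide (z ∈ T))).length * (X.length + 1) ≤ c.length := by
  by_cases h : ∃ w ∈ c, w ∈ T
  · obtain ⟨w0, hw0c, hw0⟩ := h
    obtain ⟨r, hr⟩ := rot_cons hw0c
    rw [(hr.perm.filter _).length_eq, hr.perm.length_eq]
    refine le_trans (filter_gap T X.length (w0 :: r) ?_ ?_)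
      (List.length_dropWhile_le _ _)
    · intro A u lost w B hl hu hw _
      refine gap_hub hM hX hXn hXd (c := c) (P := (w :: B) ++ (A ++ [u])) (lost := lost) hc ?_
        (w := w) (u := u) (by simp)
        (by rw [List.getLast?_append, List.getLast?_append]; simp) (hT w hw).2.2 (hT u hu).2.1
      refine hr.trans ?_
      rw [hl]
      have e1 : A ++ u :: (lost ++ w :: B) = (A ++ [u] ++ lost) ++ (w :: B) := by simp
      have e2 : (w :: B) ++ (A ++ [u]) ++ lost = (w :: B) ++ (A ++ [u] ++ lost) := by simp
      rw [e1, e2]
      exact List.isRotated_append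
    · intro A u lost hl hu _
      refine gap_hub hM hX hXn hXd (c := c) (P := A ++ [u]) (lost := lost) hc ?_
        (w := w0) (u := u) ?_ (by simp) (hT w0 hw0).2.2 (hT u hu).2.1
      · have e1 : (A ++ [u]) ++ lost = w0 :: r := by rw [hl]; simp
        rw [e1]
        exact hr
      · rcases A with _ | ⟨a, A⟩
        · simp only [List.nil_append, List.cons.injEq] at hl
          simp [hl.1]
        · simp only [List.cons_append, List.cons.injEq] at hl
          simp [hl.1]
  · push Not at h
    have : c.filter (fun z => decide (z ∈ T)) = [] := by
      rw [List.filter_eq_nil_iff]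
      intro a ha
      simpa using h a ha
    rw [this]
    simp

theorem sum_cycles (p : V → Bool) (g : ℕ) : ∀ L : List (List V),
    (∀ c ∈ L, (c.filter p).length * g ≤ c.length) →
    (L.flatten.filter p).length * g ≤ L.flatten.length := by
  intro L
  induction L with
  | nil => intro _; simp
  | cons c L ih =>
    intro h
    have h1 := h c (by simp)
    have h2 := ih (fun d hd => h d (by simp [hd]))
    rw [List.flatten_cons, List.filter_append, List.length_append, List.length_append]
    nlinarith

/-- Between two vertices of `T` on a cycle of `L` there are at least `X.length` others. -/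
theorem hub_count [Fintype V] {G : SimpleGraph V} {j : ℕ} {L : List (List V)}
    (hM : IsMax G j L) {X : List V} {x y : V} (hX : Seg G X x y) (hXn : X.Nodup)
    (hXd : ∀ z ∈ X, z ∉ L.flatten) (T : Finset V)
    (hT : ∀ w ∈ T, w ∈ L.flatten ∧ G.Adj w x ∧ G.Adj w y) :
    T.card * (X.length + 1) ≤ Fintype.card V := by
  have h1 := sum_cycles (fun z => decide (z ∈ T)) (X.length + 1) L
    (fun c hc => hub_cycle hM hX hXn hXd T hT hc)
  have h2 : L.flatten.length ≤ Fintype.card V := hM.fam.nod.length_le_card
  have h3 : T.card ≤ (L.flatten.filter (fun z => decide (z ∈ T))).length := by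
    have hsub : T ⊆ (L.flatten.filter (fun z => decide (z ∈ T))).toFinset := by
      intro w hw
      rw [List.mem_toFinset, List.mem_filter]
      exact ⟨(hT w hw).1, by simpa using hw⟩
    exact (Finset.card_le_card hsub).trans (List.toFinset_card_le _)
  calc T.card * (X.length + 1)
      ≤ (L.flatten.filter (fun z => decide (z ∈ T))).length * (X.length + 1) :=
        Nat.mul_le_mul_right _ h3
    _ ≤ L.flatten.length := h1
    _ ≤ Fintype.card V := h2

theorem sum_lengths (m : ℕ) : ∀ L : List (List V), (∀ c ∈ L, m ≤ c.length) →
    L.length * m ≤ L.flatten.length := by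
  intro L
  induction L with
  | nil => intro _; simp
  | cons c L ih =>
    intro h
    have h1 := h c (by simp)
    have h2 := ih (fun d hd => h d (by simp [hd]))
    rw [List.flatten_cons, List.length_append, List.length_cons]
    nlinarith

/-- an uncovered cycle is not longer than any cycle of the family -/
theorem cyc_len [Fintype V] {G : SimpleGraph V} {j : ℕ} {L : List (List V)}
    (hM : IsMax G j L) {c : List V} (hc : CycL G c) (hcd : ∀ x ∈ c, x ∉ L.flatten) :
    j * c.length ≤ Fintype.card V := by
  have hpos := hc.2.1
  have hlen : L.length = j := by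
    by_contra hne
    have hlt : L.length < j := lt_of_le_of_ne hM.len hne
    have hfam : Fam G (c :: L) := by
      refine ⟨?_, ?_⟩
      · intro d hd
        rcases List.mem_cons.1 hd with rfl | hd
        · exact hc
        · exact hM.fam.cyc d hd
      · rw [List.flatten_cons, List.nodup_append]
        refine ⟨hc.1, hM.fam.nod, ?_⟩
        rintro a ha b hb rfl
        exact hcd a ha hb
    have := hM.max (c :: L) hfam (by rw [List.length_cons]; omega)
    rw [List.flatten_cons, List.length_append] at this
    omega
  have hall : ∀ d ∈ L, c.length ≤ d.length := by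
    intro d hd
    by_contra hlt
    push Not at hlt
    have hp := perm_erase_flatten hd
    have hnd := hp.nodup_iff.1 hM.fam.nod
    rw [List.nodup_append] at hnd
    have hfam : Fam G (c :: L.erase d) := by
      refine ⟨?_, ?_⟩
      · intro e he
        rcases List.mem_cons.1 he with rfl | he
        · exact hc
        · exact hM.fam.cyc e (List.mem_of_mem_erase he)
      · rw [List.flatten_cons, List.nodup_append]
        refine ⟨hc.1, hnd.2.1, ?_⟩
        rintro a ha b hb rfl
        exact hcd a ha (hp.mem_iff.2 (List.mem_append_right _ hb))
    have h1 := hM.max (c :: L.erase d) hfam (by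
      rw [List.length_cons, List.length_erase_of_mem hd]
      have : 0 < L.length := List.length_pos_of_mem hd
      omega)
    have h2 := hp.length_eq
    rw [List.flatten_cons, List.length_append] at h1
    rw [List.length_append] at h2
    omega
  have h1 := sum_lengths c.length L hall
  have h2 : L.flatten.length ≤ Fintype.card V := hM.fam.nod.length_le_card
  rw [hlen] at h1
  exact h1.trans h2

end Pool.Agent.TFB
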