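import Pool.Agent.TFB.Defs

/-! M1 (file Place.lean): cutting the cycles of a family at one or two vertices. -/

namespace Pool.Agent.TFB

open List Pool.Agent.TF82 Pool.Agent.TFC

universe u

set_option linter.unusedSectionVars false
set_option linter.unusedVariables false

variable {V : Type u} [DecidableEq V]

private theorem same_cyc {G : SimpleGraph V} {L : List (List V)} (hL : Fam G L) {c d : List V} (hc : c ∈ L)
    (hd : d ∈ L) {x : V} (hx : x ∈ c) (hx' : x ∈ d) : c = d := by
  by_contra hne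
  have h2 := (List.nodup_flatten.1 hL.nod).2
  have : Std.Symm (List.Disjoint : List V → List V → Prop) := ⟨fun _ _ h => h.symm⟩
  exact h2.forall hc hd hne hx hx'

theorem prv_mem {G : SimpleGraph V} {L : List (List V)} (hL : Fam G L) {x : V}
    (hx : x ∈ L.flatten) : prv L x ∈ L.flatten := by
  obtain ⟨c, hc, hxc⟩ := List.mem_flatten.1 hx
  rw [prv_eq hL hc hxc]
  exact List.mem_flatten.2 ⟨c, hc, List.prev_mem _ _ _⟩

theorem prv_inj {G : SimpleGraph V} {L : List (List V)} (hL : Fam G L) {x y : V}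
    (hx : x ∈ L.flatten) (hy : y ∈ L.flatten) (h : prv L x = prv L y) : x = y := by
  obtain ⟨c, hc, hxc⟩ := List.mem_flatten.1 hx
  obtain ⟨d, hd, hyd⟩ := List.mem_flatten.1 hy
  rw [prv_eq hL hc hxc, prv_eq hL hd hyd] at h
  have h1 : c.prev x hxc ∈ d := by rw [h]; exact List.prev_mem _ _ _
  have h2 := same_cyc hL hc hd (List.prev_mem c x hxc) h1
  subst h2
  exact prev_inj (hL.cyc c hc).1 hxc hyd h

theorem prv_adj {G : SimpleGraph V} {L : List (List V)} (hL : Fam G L) {x : V}
    (hx : x ∈ L.flatten) : G.Adj (prv L x) x := by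
  obtain ⟨c, hc, hxc⟩ := List.mem_flatten.1 hx
  rw [prv_eq hL hc hxc]
  exact (hL.cyc c hc).prev_adj hxc

/-- cycles have at least three vertices -/
theorem prv_prv_ne {G : SimpleGraph V} {L : List (List V)} (hL : Fam G L) {x : V}
    (hx : x ∈ L.flatten) : prv L (prv L x) ≠ x := by
  obtain ⟨c, hc, hxc⟩ := List.mem_flatten.1 hx
  have hz : c.prev x hxc ∈ c := List.prev_mem _ _ _
  rw [prv_eq hL hc hxc, prv_eq hL hc hz]
  intro h
  have hn := (hL.cyc c hc).1
  have h1 : c.next (c.prev (c.prev x hxc) hz) (List.prev_mem _ _ _) = c.prev x hxc := List.next_prev c hn _ hz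
  have h2 : c.next x hxc = c.prev x hxc := by
    rw [← h1]
    congr 1
    exact h.symm
  exact next_ne_prev (hL.cyc c hc) hxc h2

private theorem chain_adj {G : SimpleGraph V} {L : List (List V)} (hL : Fam G L) : ∀ P : List V,
    P.IsChain (fun x y => prv L y = x) → (∀ x ∈ P, x ∈ L.flatten) → P.IsChain G.Adj
  | [], _, _ => List.isChain_nil
  | [x], _, _ => List.isChain_singleton x
  | x :: y :: P, h, hP => by
    rw [List.isChain_cons_cons] at h ⊢
    refine ⟨?_, chain_adj hL (y :: P) h.2 fun z hz => hP z (List.mem_cons_of_mem _ hz)⟩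
    rw [← h.1]
    exact prv_adj hL (hP y (by simp))

theorem PSeg.seg {G : SimpleGraph V} {L : List (List V)} (hL : Fam G L) {P : List V} {s t : V}
    (h : PSeg L P s t) (hP : ∀ x ∈ P, x ∈ L.flatten) : Seg G P s t :=
  ⟨chain_adj hL P h.ch hP, h.hd, h.lt⟩

/-- dropping the last vertex -/
theorem PSeg.drop {L : List (List V)} {P : List V} {s t : V} (h : PSeg L P s t) (hst : s ≠ t) :
    ∃ P', P = P' ++ [t] ∧ PSeg L P' s (prv L t) := by
  obtain ⟨ch, hd, lt⟩ := h
  rcases List.eq_nil_or_concat P with rfl | ⟨P', u, hPu⟩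
  · simp at hd
  have hPu' : P = P' ++ [u] := by rw [hPu]; simp
  subst hPu'
  have hu : u = t := by simpa using lt
  subst hu
  rcases List.eq_nil_or_concat P' with rfl | ⟨P'', z, hz⟩
  · simp at hd
    exact absurd hd.symm hst
  have hz' : P' = P'' ++ [z] := by rw [hz]; simp
  rw [List.isChain_append] at ch
  refine ⟨P', rfl, ch.1, ?_, ?_⟩
  · rw [hz'] at hd ⊢
    rw [List.head?_append_of_ne_nil _ (by simp)] at hd
    exact hd
  · have h1 := ch.2.2 z (by rw [hz']; simp) u (by simp)
    rw [h1, hz']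
    simp

private theorem chain_rot {G : SimpleGraph V} {L : List (List V)} (hL : Fam G L) {c : List V} (hc : c ∈ L) :
    ∀ B A : List V, c ~r (A ++ B) → B.IsChain (fun x y => prv L y = x)
  | [], _, _ => List.isChain_nil
  | [x], _, _ => List.isChain_singleton x
  | x :: y :: B, A, h => by
    rw [List.isChain_cons_cons]
    have e : A ++ x :: y :: B = (A ++ [x]) ++ (y :: B) := by simp
    rw [e] at h
    refine ⟨?_, chain_rot hL hc (y :: B) (A ++ [x]) h⟩
    have hr : c ~r (y :: (B ++ (A ++ [x]))) := by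
      have h1 : (A ++ [x]) ++ (y :: B) ~r (y :: B) ++ (A ++ [x]) := List.isRotated_append
      exact h.trans (by simpa using h1)
    have hy : y ∈ c := hr.mem_iff.2 (by simp)
    rw [prv_eq hL hc hy, prev_of_rot (hL.cyc c hc).1 hr hy]
    rw [List.getLast_cons (by simp), List.getLast_append_of_ne_nil _ (by simp),
      List.getLast_append_of_ne_nil _ (by simp)]
    simp

private theorem cut1 {G : SimpleGraph V} {L : List (List V)} (hL : Fam G L) {c : List V} (hc : c ∈ L) {w : V}
    (hw : w ∈ c) : ∃ P : List V, PSeg L P w (prv L w) ∧ 3 ≤ P.length ∧ c.Perm P := by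
  obtain ⟨r, hr⟩ := rot_cons hw
  refine ⟨w :: r, ⟨chain_rot hL hc (w :: r) [] (by simpa using hr), rfl, ?_⟩, ?_, hr.perm⟩
  · rw [prv_eq hL hc hw, prev_of_rot (hL.cyc c hc).1 hr hw, List.getLast?_eq_getLast_of_ne_nil (by simp)]
  · rw [← hr.perm.length_eq]
    exact (hL.cyc c hc).2.1

/-- cutting one cycle before `w` -/
theorem place1 {G : SimpleGraph V} {L : List (List V)} (hL : Fam G L) {w : V}
    (hw : w ∈ L.flatten) : ∃ (P : List V) (L' : List (List V)), PSeg L P w (prv L w) ∧ 3 ≤ P.length ∧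
      L.flatten.Perm (P ++ L'.flatten) ∧ (∀ c ∈ L', CycL G c) ∧ L'.length + 1 = L.length := by
  obtain ⟨c, hc, hwc⟩ := List.mem_flatten.1 hw
  obtain ⟨P, h1, h2, h3⟩ := cut1 hL hc hwc
  refine ⟨P, L.erase c, h1, h2, ?_, fun d hd => hL.cyc d (List.mem_of_mem_erase hd), ?_⟩
  · have h4 := List.Perm.flatten (List.perm_cons_erase hc)
    rw [List.flatten_cons] at h4
    exact h4.trans (h3.append_right _)
  · rw [List.length_erase_of_mem hc]
    have := List.length_pos_of_mem hc
    omega

/-- cutting before `w1` and before `w2`: on one cycle (first case) or on two (second case) -/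
theorem place2 {G : SimpleGraph V} {L : List (List V)} (hL : Fam G L) {w1 w2 : V}
    (hw1 : w1 ∈ L.flatten) (hw2 : w2 ∈ L.flatten) (hne : w1 ≠ w2) :
    ∃ (P R : List V) (L' : List (List V)), L.flatten.Perm (P ++ (R ++ L'.flatten)) ∧ (∀ c ∈ L', CycL G c) ∧
      L'.length + 1 ≤ L.length ∧ 3 ≤ P.length + R.length ∧
      ((PSeg L P w1 (prv L w2) ∧ PSeg L R w2 (prv L w1)) ∨
        (PSeg L P w1 (prv L w1) ∧ PSeg L R w2 (prv L w2))) := by
  obtain ⟨c, hc, hwc⟩ := List.mem_flatten.1 hw1
  obtain ⟨d, hd, hwd⟩ := List.mem_flatten.1 hw2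
  by_cases hcd : c = d
  · subst hcd
    obtain ⟨A, B, hr, e1, e2⟩ := split_two (hL.cyc c hc).1 hwc hwd hne
    have hch := chain_rot hL hc ((w1 :: A) ++ (w2 :: B)) [] (by simpa using hr)
    rw [List.isChain_append] at hch
    refine ⟨w1 :: A, w2 :: B, L.erase c, ?_, fun d hd => hL.cyc d (List.mem_of_mem_erase hd), ?_, ?_,
      Or.inl ⟨⟨hch.1, rfl, ?_⟩, ⟨hch.2.1, rfl, ?_⟩⟩⟩
    · have h4 := List.Perm.flatten (List.perm_cons_erase hc)
      rw [List.flatten_cons] at h4
      rw [← List.append_assoc]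
      exact h4.trans (hr.perm.append_right _)
    · rw [List.length_erase_of_mem hc]
      have := List.length_pos_of_mem hc
      omega
    · have h5 := hr.perm.length_eq
      rw [List.length_append] at h5
      rw [← h5]
      exact (hL.cyc c hc).2.1
    · rw [prv_eq hL hc hwd, List.getLast?_eq_getLast_of_ne_nil (by simp), ← e1]
    · rw [prv_eq hL hc hwc, List.getLast?_eq_getLast_of_ne_nil (by simp), ← e2]
  · obtain ⟨P, h1, h2, h3⟩ := cut1 hL hc hwc
    obtain ⟨R, g1, g2, g3⟩ := cut1 hL hd hwd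
    have hd' : d ∈ L.erase c := (List.mem_erase_of_ne (Ne.symm hcd)).2 hd
    refine ⟨P, R, (L.erase c).erase d, ?_, fun e he => hL.cyc e (List.mem_of_mem_erase (List.mem_of_mem_erase he)), ?_,
      by omega, Or.inr ⟨h1, g1⟩⟩
    · have h4 := List.Perm.flatten (List.perm_cons_erase hc)
      rw [List.flatten_cons] at h4
      have h5 := List.Perm.flatten (List.perm_cons_erase hd')
      rw [List.flatten_cons] at h5
      exact h4.trans (h3.append (h5.trans (g3.append_right _)))
    · rw [List.length_erase_of_mem hd', List.length_erase_of_mem hc]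
      have := List.length_pos_of_mem hc
      omega

end Pool.Agent.TFB
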